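import Pool.Agent.P.MP_7bb607_co.Defs

namespace Pool.Agent.P.MP_7bb607_co

open ExteriorAlgebra

noncomputable section

variable {n : ℕ} {W : Type} [AddCommGroup W] [Module ℝ W]

theorem quot_eq_zero {V : Type} [AddCommGroup V] [Module ℝ V] (Z B : Submodule ℝ V)
    (h : Z ≤ B) : Module.finrank ℝ (Z ⧸ B.submoduleOf Z) = 0 := by
  have : B.submoduleOf Z = ⊤ := by
    rw [eq_top_iff]
    intro x _
    exact h x.2
  have hs : Subsingleton (Z ⧸ B.submoduleOf Z) := Submodule.Quotient.subsingleton_iff.2 this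
  exact Module.finrank_zero_of_subsingleton

theorem quot_pos {V : Type} [AddCommGroup V] [Module ℝ V] [Module.Finite ℝ V]
    (Z B : Submodule ℝ V) (c : V) (hc : c ∈ Z) (hB : c ∉ B) :
    0 < Module.finrank ℝ (Z ⧸ B.submoduleOf Z) := by
  have hne : B.submoduleOf Z ≠ ⊤ := by
    intro h
    have : (⟨c, hc⟩ : Z) ∈ B.submoduleOf Z := by rw [h]; trivial
    exact hB this
  have hn : Nontrivial (Z ⧸ B.submoduleOf Z) := Submodule.Quotient.nontrivial_iff.2 hne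
  exact Module.finrank_pos

theorem chain_finite [Module.Finite ℝ W] (Δ : Finset (Finset (Fin n))) (P : Fin n → W) (m k : ℕ) :
    Module.Finite ℝ (chain Δ P m k) := by
  have : ∀ σ, Module.Finite ℝ (coef P k σ) := fun σ =>
    inferInstanceAs (Module.Finite ℝ (⋀[ℝ]^k W ⧸ annih P k σ))
  exact inferInstanceAs (Module.Finite ℝ
    ((σ : {σ : Finset (Fin n) // σ ∈ Δ ∧ σ.card = m}) → coef P k σ.1))

/-- A linear functional on the exterior algebra that evaluates a 3 by 3 determinant. -/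
theorem exists_det3 (f g h : W →ₗ[ℝ] ℝ) :
    ∃ φ : ExteriorAlgebra ℝ W →ₗ[ℝ] ℝ, ∀ a b c : W, φ (ι ℝ a * ι ℝ b * ι ℝ c) =
      f a * g b * h c - f a * h b * g c - g a * f b * h c + g a * h b * f c
        + h a * f b * g c - h a * g b * f c := by
  let L : W →ₗ[ℝ] (Fin 3 → ℝ) := LinearMap.pi ![f, g, h]
  let G : W [⋀^Fin 3]→ₗ[ℝ] ℝ := (Matrix.detRowAlternating (n := Fin 3) (R := ℝ)).compLinearMap L
  let F : ∀ i, W [⋀^Fin i]→ₗ[ℝ] ℝ := Pi.single (M := fun i => W [⋀^Fin i]→ₗ[ℝ] ℝ) 3 G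
  refine ⟨liftAlternating F, fun a b c => ?_⟩
  have h1 : ι ℝ a * ι ℝ b * ι ℝ c = ιMulti ℝ 3 ![a, b, c] := by
    simp [ιMulti_apply, mul_assoc]
  rw [h1, liftAlternating_apply_ιMulti]
  have h2 : F 3 = G := Pi.single_eq_same (M := fun i => W [⋀^Fin i]→ₗ[ℝ] ℝ) 3 G
  rw [h2]
  have h3 : G ![a, b, c] = Matrix.det (Matrix.of fun i => L (![a, b, c] i)) := rfl
  rw [h3, Matrix.det_fin_three]
  simp [L]

theorem pt_mul_prod (P : Fin n → W) {z : Fin n} :
    ∀ {l : List (Fin n)}, z ∈ l → ι ℝ (P z) * (l.map fun v => ι ℝ (P v)).prod = 0 := by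
  intro l hz
  obtain ⟨e, he⟩ := prod_perm P (List.perm_cons_erase hz)
  rw [he, List.map_cons, List.prod_cons, mul_smul_comm, ← mul_assoc]
  have : ι ℝ (P z) * ι ℝ (P z) = 0 := ι_sq_zero _
  rw [this, zero_mul, smul_zero]

theorem pt_mul_extensor (P : Fin n → W) {z : Fin n} {σ : Finset (Fin n)} (hz : z ∈ σ) :
    ι ℝ (P z) * extensor P σ = 0 :=
  pt_mul_prod P (by simpa using hz)

theorem extensor_singleton (P : Fin n → W) (v : Fin n) : extensor P {v} = ι ℝ (P v) := by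
  simp [extensor]

theorem mem_one (w : W) : ι ℝ w ∈ ⋀[ℝ]^1 W := by
  rw [exteriorPower, pow_one]
  exact LinearMap.mem_range_self _ _

theorem mem_zero (t : ℝ) : algebraMap ℝ (ExteriorAlgebra ℝ W) t ∈
    ⋀[ℝ]^0 W := by
  rw [exteriorPower, pow_zero]
  exact Submodule.mem_one.2 ⟨t, rfl⟩

theorem exists_one (c : ⋀[ℝ]^1 W) : ∃ w, c = ⟨ι ℝ w, mem_one w⟩ := by
  obtain ⟨c, hc⟩ := c
  have hc' := hc
  rw [exteriorPower, pow_one] at hc'
  obtain ⟨w, rfl⟩ := hc'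
  exact ⟨w, rfl⟩

theorem exists_zero (c : ⋀[ℝ]^0 W) :
    ∃ t, c = ⟨algebraMap ℝ _ t, mem_zero t⟩ := by
  obtain ⟨c, hc⟩ := c
  have hc' := hc
  rw [exteriorPower, pow_zero] at hc'
  obtain ⟨t, rfl⟩ := Submodule.mem_one.1 hc'
  exact ⟨t, rfl⟩

/-- The class of a representative in the coefficient space. -/
def cls (P : Fin n → W) (k : ℕ) (σ : Finset (Fin n)) : ⋀[ℝ]^k W →ₗ[ℝ] coef P k σ :=
  (annih P k σ).mkQ

theorem cls_surj (P : Fin n → W) (k : ℕ) (σ : Finset (Fin n)) :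
    Function.Surjective (cls P k σ) := Submodule.mkQ_surjective _

theorem coefMap_cls (P : Fin n → W) (k : ℕ) (x : Fin n) (τ : Finset (Fin n)) (hx : x ∉ τ)
    (a : ⋀[ℝ]^k W) : coefMap P k x τ hx (cls P k _ a) = cls P (k + 1) τ (wedgeWith k (P x) a) :=
  rfl

/-- The coefficient of a chain at a face. -/
def ev (Δ : Finset (Finset (Fin n))) (P : Fin n → W) (m k : ℕ) (c : chain Δ P m k)
    (σ : {σ : Finset (Fin n) // σ ∈ Δ ∧ σ.card = m}) : coef P k σ.1 := c σ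

theorem chain_ext (Δ : Finset (Finset (Fin n))) (P : Fin n → W) (m k : ℕ) (c c' : chain Δ P m k)
    (h : ∀ σ, ev Δ P m k c σ = ev Δ P m k c' σ) : c = c' := funext h

/-- The chain with given representatives. -/
def mkChain (Δ : Finset (Finset (Fin n))) (P : Fin n → W) (m k : ℕ)
    (s : Finset (Fin n) → ⋀[ℝ]^k W) : chain Δ P m k := fun σ => cls P k σ.1 (s σ.1)

theorem ev_mkChain (Δ : Finset (Finset (Fin n))) (P : Fin n → W) (m k : ℕ)
    (s : Finset (Fin n) → ⋀[ℝ]^k W) (σ) : ev Δ P m k (mkChain Δ P m k s) σ = cls P k σ.1 (s σ.1) :=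
  rfl

theorem ev_zero (Δ : Finset (Finset (Fin n))) (P : Fin n → W) (m k : ℕ) (σ) :
    ev Δ P m k 0 σ = cls P k σ.1 0 := rfl

theorem ev_bdry (Δ : Finset (Finset (Fin n))) (P : Fin n → W) (m k : ℕ)
    (c : chain Δ P (m + 1) k) (τ : {σ : Finset (Fin n) // σ ∈ Δ ∧ σ.card = m}) :
    ev Δ P m (k + 1) (bdry Δ P m k c) τ = ∑ x : {x : Fin n // x ∉ τ.1 ∧ insert x τ.1 ∈ Δ},
      coefMap P k x.1 τ.1 x.2.1 (ev Δ P (m + 1) k c ⟨insert x.1 τ.1, x.2.2, by
        rw [Finset.card_insert_of_notMem x.2.1, τ.2.2]⟩) :=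
  LinearMap.sum_apply _ _ _

/-- Description of the boundary on representatives. -/
theorem bdry_apply (Δ : Finset (Finset (Fin n))) (P : Fin n → W) (m k : ℕ)
    (c : chain Δ P (m + 1) k) (s : Finset (Fin n) → ⋀[ℝ]^k W)
    (hs : ∀ σ, ev Δ P (m + 1) k c σ = cls P k σ.1 (s σ.1))
    (τ : {σ : Finset (Fin n) // σ ∈ Δ ∧ σ.card = m}) :
    ev Δ P m (k + 1) (bdry Δ P m k c) τ = cls P (k + 1) τ.1
      (∑ x ∈ Finset.univ.filter (fun x => x ∉ τ.1 ∧ insert x τ.1 ∈ Δ),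
        wedgeWith k (P x) (s (insert x τ.1))) := by
  rw [Finset.sum_subtype (p := fun x => x ∉ τ.1 ∧ insert x τ.1 ∈ Δ) _ (by simp)]
  rw [map_sum, ev_bdry]
  refine Finset.sum_congr rfl fun x _ => ?_
  rw [hs, coefMap_cls]

theorem cls_eq_cls (P : Fin n → W) (k : ℕ) (σ : Finset (Fin n)) (a b : ⋀[ℝ]^k W) :
    cls P k σ a = cls P k σ b ↔
      (a : ExteriorAlgebra ℝ W) * extensor P σ = (b : ExteriorAlgebra ℝ W) * extensor P σ := by
  refine (Submodule.Quotient.eq (annih P k σ)).trans ?_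
  show ((a - b : ⋀[ℝ]^k W) : ExteriorAlgebra ℝ W) * extensor P σ = 0 ↔ _
  rw [Submodule.coe_sub, sub_mul, sub_eq_zero]

/-- The equation `bdry c = c'` at the face `τ`, on representatives. -/
theorem bdry_eq_iff (Δ : Finset (Finset (Fin n))) (P : Fin n → W) (m k : ℕ)
    (c : chain Δ P (m + 1) k) (s : Finset (Fin n) → ⋀[ℝ]^k W)
    (hs : ∀ σ, ev Δ P (m + 1) k c σ = cls P k σ.1 (s σ.1))
    (τ : {σ : Finset (Fin n) // σ ∈ Δ ∧ σ.card = m}) (u : ⋀[ℝ]^(k + 1) W) :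
    ev Δ P m (k + 1) (bdry Δ P m k c) τ = cls P (k + 1) τ.1 u ↔
      ∑ x ∈ Finset.univ.filter (fun x => x ∉ τ.1 ∧ insert x τ.1 ∈ Δ),
        (s (insert x τ.1) : ExteriorAlgebra ℝ W) * ι ℝ (P x) * extensor P τ.1 =
        (u : ExteriorAlgebra ℝ W) * extensor P τ.1 := by
  rw [bdry_apply Δ P m k c s hs, cls_eq_cls, Submodule.coe_sum, Finset.sum_mul]
  rfl

theorem linIndep_of_affIndep {d : ℕ} {I : Type} [Fintype I] (x : I → Fin d → ℝ)
    (h : AffineIndependent ℝ x) :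
    LinearIndependent ℝ fun v => (Fin.snoc (x v) 1 : Fin (d + 1) → ℝ) := by
  rw [Fintype.linearIndependent_iff]
  intro w hw v
  rw [affineIndependent_iff] at h
  refine h Finset.univ w ?_ ?_ v (Finset.mem_univ v)
  · have := congrFun hw (Fin.last d)
    simpa [Finset.sum_apply] using this
  · funext j
    have := congrFun hw j.castSucc
    simpa [Finset.sum_apply] using this

end

end Pool.Agent.P.MP_7bb607_co
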