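import Mathlib

/-! Skeletal rigidity chain complex of a simplicial complex on the vertex set `Fin n`.
The vectors `P v` in `W` are the homogeneous coordinates of the points. -/

namespace Pool.Agent.P.MP_7bb607_co

open ExteriorAlgebra

noncomputable section

variable {n : ℕ} {W : Type} [AddCommGroup W] [Module ℝ W]

/-- The wedge product of the vectors `P v`, `v ∈ σ`, in increasing order of the vertices. -/
def extensor (P : Fin n → W) (σ : Finset (Fin n)) : ExteriorAlgebra ℝ W :=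
  ((σ.sort (· ≤ ·)).map fun v => ι ℝ (P v)).prod

/-- The subspace of those `c` in `Λ^k W` whose wedge with the extensor of `σ` vanishes. -/
def annih (P : Fin n → W) (k : ℕ) (σ : Finset (Fin n)) : Submodule ℝ (⋀[ℝ]^k W) :=
  LinearMap.ker (LinearMap.mulRight ℝ (extensor P σ) ∘ₗ (⋀[ℝ]^k W).subtype)

/-- The map `Λ^k W → Λ^(k+1) W`, `c ↦ c ∧ w`. -/
def wedgeWith (k : ℕ) (w : W) : ⋀[ℝ]^k W →ₗ[ℝ] ⋀[ℝ]^(k + 1) W :=
  (LinearMap.mulRight ℝ (ι ℝ w)).restrict fun _ hc => by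
    rw [exteriorPower, pow_succ]
    exact Submodule.mul_mem_mul hc (LinearMap.mem_range_self _ _)

theorem prod_perm (P : Fin n → W) {l₁ l₂ : List (Fin n)} (h : l₁.Perm l₂) :
    ∃ e : ℝ, (l₁.map fun v => ι ℝ (P v)).prod = e • (l₂.map fun v => ι ℝ (P v)).prod := by
  induction h with
  | nil => exact ⟨1, by simp⟩
  | cons x _ ih =>
    obtain ⟨e, he⟩ := ih
    exact ⟨e, by simp [he]⟩
  | swap x y l =>
    refine ⟨-1, ?_⟩
    have h : ι ℝ (P y) * ι ℝ (P x) = -(ι ℝ (P x) * ι ℝ (P y)) :=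
      eq_neg_of_add_eq_zero_left (ι_add_mul_swap _ _)
    simp [← mul_assoc, h]
  | trans _ _ ih₁ ih₂ =>
    obtain ⟨e₁, h₁⟩ := ih₁
    obtain ⟨e₂, h₂⟩ := ih₂
    exact ⟨e₁ * e₂, by rw [h₁, h₂, smul_smul]⟩

theorem annih_le (P : Fin n → W) (k : ℕ) {x : Fin n} {τ : Finset (Fin n)} (hx : x ∉ τ) :
    annih P k (insert x τ) ≤ (annih P (k + 1) τ).comap (wedgeWith k (P x)) := by
  intro c hc
  have hperm : (x :: τ.sort (· ≤ ·)).Perm ((insert x τ).sort (· ≤ ·)) := by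
    rw [← Multiset.coe_eq_coe, ← Multiset.cons_coe, Finset.sort_eq, Finset.sort_eq,
      Finset.insert_val_of_notMem hx]
  obtain ⟨e, he⟩ := prod_perm P hperm
  have hc' : (c : ExteriorAlgebra ℝ W) * extensor P (insert x τ) = 0 := hc
  have he' : ι ℝ (P x) * extensor P τ = e • extensor P (insert x τ) := he
  show (c : ExteriorAlgebra ℝ W) * ι ℝ (P x) * extensor P τ = 0
  rw [mul_assoc, he', mul_smul_comm, hc', smul_zero]

/-- The coefficient space `Λ^k W / {c | c ∧ σ = 0}` of a face `σ`. -/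
def coef (P : Fin n → W) (k : ℕ) (σ : Finset (Fin n)) : ModuleCat ℝ :=
  ModuleCat.of ℝ (⋀[ℝ]^k W ⧸ annih P k σ)

/-- The map `Λ^k W / {c | c ∧ (τ ∪ x) = 0} → Λ^(k+1) W / {c | c ∧ τ = 0}` induced by
`c ↦ c ∧ P x`. -/
def coefMap (P : Fin n → W) (k : ℕ) (x : Fin n) (τ : Finset (Fin n)) (hx : x ∉ τ) :
    coef P k (insert x τ) →ₗ[ℝ] coef P (k + 1) τ :=
  Submodule.mapQ _ _ (wedgeWith k (P x)) (annih_le P k hx)

/-- The chain space `C_(m-1)` of the skeletal `(m+k)`-rigidity complex: the direct sum of the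
coefficient spaces over the faces with `m` vertices. -/
def chain (Δ : Finset (Finset (Fin n))) (P : Fin n → W) (m k : ℕ) : ModuleCat ℝ :=
  ModuleCat.of ℝ ((σ : {σ : Finset (Fin n) // σ ∈ Δ ∧ σ.card = m}) → coef P k σ.1)

/-- The boundary map: the coefficient of `τ` in the boundary of `c` is the sum, over the vertices
`x ∉ τ` with `τ ∪ {x}` a face, of the class of `c (τ ∪ {x}) ∧ P x`. -/
def bdry (Δ : Finset (Finset (Fin n))) (P : Fin n → W) (m k : ℕ) :
    chain Δ P (m + 1) k →ₗ[ℝ] chain Δ P m (k + 1) :=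
  LinearMap.pi fun τ => ∑ x : {x : Fin n // x ∉ τ.1 ∧ insert x τ.1 ∈ Δ},
    coefMap P k x.1 τ.1 x.2.1 ∘ₗ
      LinearMap.proj (φ := fun σ : {σ : Finset (Fin n) // σ ∈ Δ ∧ σ.card = m + 1} => coef P k σ.1)
        ⟨insert x.1 τ.1, x.2.2, by rw [Finset.card_insert_of_notMem x.2.1, τ.2.2]⟩

/-- The kernel of the boundary map leaving `chain Δ P m k` (everything when `m = 0`). -/
def cyc (Δ : Finset (Finset (Fin n))) (P : Fin n → W) :
    (m k : ℕ) → Submodule ℝ (chain Δ P m k)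
  | 0, _ => ⊤
  | m + 1, k => LinearMap.ker (bdry Δ P m k)

/-- The image of the boundary map arriving in `chain Δ P m k` (zero when `k = 0`). -/
def bnd (Δ : Finset (Finset (Fin n))) (P : Fin n → W) :
    (m k : ℕ) → Submodule ℝ (chain Δ P m k)
  | _, 0 => ⊥
  | m, k + 1 => LinearMap.range (bdry Δ P m k)

/-- The dimension of the homology at `chain Δ P m k`. -/
def homDim (Δ : Finset (Finset (Fin n))) (P : Fin n → W) (m k : ℕ) : ℕ :=
  Module.finrank ℝ (cyc Δ P m k ⧸ (bnd Δ P m k).submoduleOf (cyc Δ P m k))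

/-- The Betti number `β_(m-1)` of the skeletal `r`-rigidity complex of a configuration `p` in
`ℝ^d`, `0 ≤ m ≤ r`. -/
def betti {d : ℕ} (Δ : Finset (Finset (Fin n))) (p : Fin n → Fin d → ℝ) (r m : ℕ) : ℕ :=
  homDim Δ (fun v => (Fin.snoc (p v) 1 : Fin (d + 1) → ℝ)) m (r - m)

end

end Pool.Agent.P.MP_7bb607_co
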