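import Pool.Agent.P.MP_7bb607_co.Pos

namespace Pool.Agent.P.MP_7bb607_co

open ExteriorAlgebra

noncomputable section

variable {n : ℕ} {W : Type} [AddCommGroup W] [Module ℝ W]

/-- Contraction from the right. -/
def ctr (f : Module.Dual ℝ W) (x : ExteriorAlgebra ℝ W) : ExteriorAlgebra ℝ W :=
  CliffordAlgebra.contractRight x f

theorem ctr_mul (f : Module.Dual ℝ W) (x : ExteriorAlgebra ℝ W) (a : W) :
    ctr f (x * ι ℝ a) = f a • x - ctr f x * ι ℝ a :=
  CliffordAlgebra.contractRight_mul_ι f a x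

theorem ctr_zero (f : Module.Dual ℝ W) : ctr f 0 = 0 := by simp [ctr]

theorem ctr_of_zero (f : Module.Dual ℝ W) {x : ExteriorAlgebra ℝ W} (hx : x ∈ ⋀[ℝ]^0 W) :
    ctr f x = 0 := by
  rw [exteriorPower, pow_zero] at hx
  obtain ⟨t, rfl⟩ := Submodule.mem_one.1 hx
  exact CliffordAlgebra.contractRight_algebraMap _ f t

theorem ctr_mem (f : Module.Dual ℝ W) (k : ℕ) :
    ∀ x ∈ ⋀[ℝ]^(k + 1) W, ctr f x ∈ ⋀[ℝ]^k W := by
  have key : ∀ k, (∀ x ∈ ⋀[ℝ]^k W, ∀ a, ctr f x * ι ℝ a ∈ ⋀[ℝ]^k W) →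
      ∀ x ∈ ⋀[ℝ]^(k + 1) W, ctr f x ∈ ⋀[ℝ]^k W := fun k h x hx => by
    rw [exteriorPower, pow_succ] at hx
    refine Submodule.mul_induction_on (C := fun x => ctr f x ∈ ⋀[ℝ]^k W) hx ?_ fun x y h1 h2 => ?_
    · rintro x hx _ ⟨a, rfl⟩
      rw [ctr_mul]
      exact sub_mem (Submodule.smul_mem _ _ hx) (h x hx a)
    · rw [ctr, map_add]
      exact add_mem h1 h2
  induction k with
  | zero => exact key 0 fun x hx a => by rw [ctr_of_zero f hx, zero_mul]; exact zero_mem _
  | succ k ih => exact key _ fun x hx a => (wedgeWith k a ⟨_, ih x hx⟩).2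

theorem eq_zero_of_kill (b : Fin n → W) (f : Fin n → Module.Dual ℝ W)
    (hf : ∀ v w, f v (b w) = if v = w then 1 else 0) (r : ℕ) : ∀ T : Finset (Fin n), r < T.card →
      ∀ x ∈ ⋀[ℝ]^r W, (∀ v ∈ T, x * ι ℝ (b v) = 0) → x = 0 := by
  have key : ∀ v x, x * ι ℝ (b v) = 0 → ctr (f v) x = 0 → x = 0 := fun v x h1 h2 => by
    have := congrArg (ctr (f v)) h1
    rwa [ctr_mul, hf, if_pos rfl, h2, zero_mul, sub_zero, one_smul, ctr_zero] at this
  induction r with
  | zero =>
    intro T hT x hx h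
    obtain ⟨v, hv⟩ := Finset.card_pos.1 hT
    exact key v x (h v hv) (ctr_of_zero _ hx)
  | succ r ih =>
    intro T hT x hx h
    obtain ⟨v, hv⟩ := Finset.card_pos.1 (Nat.zero_lt_of_lt hT)
    refine key v x (h v hv) (ih (T.erase v) (by rw [Finset.card_erase_of_mem hv]; omega) _
      (ctr_mem _ r x hx) fun w hw => ?_)
    have := congrArg (ctr (f v)) (h w (Finset.mem_of_mem_erase hw))
    rwa [ctr_mul, hf, if_neg (Finset.ne_of_mem_erase hw).symm, zero_smul, zero_sub, ctr_zero,
      neg_eq_zero] at this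

/-- The wedge product along a list. -/
def pl (P : Fin n → W) (l : List (Fin n)) : ExteriorAlgebra ℝ W := (l.map fun v => ι ℝ (P v)).prod

theorem pl_append (P : Fin n → W) (l l' : List (Fin n)) : pl P (l ++ l') = pl P l * pl P l' := by
  simp [pl]

theorem pl_mem (P : Fin n → W) (l : List (Fin n)) : pl P l ∈ ⋀[ℝ]^l.length W := by
  induction l using List.reverseRecOn with
  | nil => exact mem_zero 1
  | append_singleton l a ih =>
    rw [List.length_append, pl_append, show pl P [a] = ι ℝ (P a) by simp [pl]]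
    exact (wedgeWith _ (P a) ⟨_, ih⟩).2

theorem pl_mul_pt (P : Fin n → W) {l : List (Fin n)} {z : Fin n} (hz : z ∈ l) :
    pl P l * ι ℝ (P z) = 0 := by
  obtain ⟨e, he⟩ := prod_perm P ((List.perm_cons_erase hz).trans (List.perm_append_singleton _ _).symm)
  rw [pl, he]
  simp [mul_assoc]

theorem pl_ne_zero (b : Fin n → W) (f : Fin n → Module.Dual ℝ W) (l : List (Fin n))
    (hl : l.Nodup) (hf : ∀ v ∈ l, ∀ w ∈ l, f v (b w) = if v = w then 1 else 0) : pl b l ≠ 0 := by
  have key : ∀ (g : Module.Dual ℝ W) (l : List (Fin n)), (∀ w ∈ l, g (b w) = 0) →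
      ctr g (pl b l) = 0 := fun g l h => by
    induction l using List.reverseRecOn with
    | nil => exact ctr_of_zero g (mem_zero 1)
    | append_singleton l a ih =>
      rw [pl_append, show pl b [a] = ι ℝ (b a) by simp [pl], ctr_mul, h a (by simp),
        ih fun w hw => h w (by simp [hw])]
      simp
  induction l using List.reverseRecOn with
  | nil => exact one_ne_zero
  | append_singleton l a ih =>
    intro h
    rw [List.nodup_append] at hl
    have := congrArg (ctr (f a)) h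
    rw [pl_append, show pl b [a] = ι ℝ (b a) by simp [pl], ctr_mul, hf a (by simp) a (by simp),
      if_pos rfl, key _ l fun w hw => by
        rw [hf a (by simp) w (by simp [hw]), if_neg (hl.2.2 w hw a (by simp)).symm],
      zero_mul, sub_zero, one_smul, ctr_zero] at this
    exact ih hl.1 (fun v hv w hw => hf v (by simp [hv]) w (by simp [hw])) this

theorem exists_split (P : Fin n → W) {l : List (Fin n)} {k : ℕ} (hl : l.length = k + 2)
    {u v : Fin n} (hu : u ∈ l) (hv : v ∈ l) (huv : u ≠ v) : ∃ y : ⋀[ℝ]^k W,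
      pl P l = y * ι ℝ (P u) * ι ℝ (P v) ∧
        ∀ w ∈ l, w ≠ u → w ≠ v → (y : ExteriorAlgebra ℝ W) * ι ℝ (P w) = 0 := by
  have h1 : u ∈ l.erase v := (List.mem_erase_of_ne huv).2 hu
  have h2 : l.Perm ((l.erase v).erase u ++ [u] ++ [v]) :=
    (List.perm_cons_erase hv).trans ((((List.perm_cons_erase h1).trans
      (List.perm_append_singleton _ _).symm).cons v).trans (List.perm_append_singleton _ _).symm)
  obtain ⟨e, he⟩ := prod_perm P h2
  have h3 := pl_mem P ((l.erase v).erase u)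
  rw [show ((l.erase v).erase u).length = k by have := h2.length_eq; simp at this; omega] at h3
  refine ⟨e • ⟨_, h3⟩, by rw [pl, he]; simp [pl, mul_assoc], fun w hw h4 h5 => ?_⟩
  rw [Submodule.coe_smul, smul_mul_assoc,
    pl_mul_pt P ((List.mem_erase_of_ne h4).2 ((List.mem_erase_of_ne h5).2 hw)), smul_zero]

theorem ext_insert (P : Fin n → W) {x : Fin n} {τ : Finset (Fin n)} (hx : x ∉ τ) :
    (∃ e : ℝ, ι ℝ (P x) * extensor P τ = e • extensor P (insert x τ)) ∧
      ∃ e : ℝ, extensor P (insert x τ) = e • (ι ℝ (P x) * extensor P τ) := by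
  have hperm : (x :: τ.sort (· ≤ ·)).Perm ((insert x τ).sort (· ≤ ·)) := by
    rw [← Multiset.coe_eq_coe, ← Multiset.cons_coe, Finset.sort_eq, Finset.sort_eq,
      Finset.insert_val_of_notMem hx]
  exact ⟨prod_perm P hperm, prod_perm P hperm.symm⟩

theorem ext_mem (P : Fin n → W) (σ : Finset (Fin n)) : extensor P σ ∈ ⋀[ℝ]^σ.card W := by
  have := pl_mem P (σ.sort (· ≤ ·))
  rwa [Finset.length_sort] at this

theorem ext_mul_pt (P : Fin n → W) {z : Fin n} {σ : Finset (Fin n)} (hz : z ∈ σ) :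
    extensor P σ * ι ℝ (P z) = 0 := pl_mul_pt P (by simpa using hz)

theorem exists_dual {I : Type} (b : I → W) (h : LinearIndependent ℝ b) [DecidableEq I] :
    ∃ f : I → Module.Dual ℝ W, ∀ v w, f v (b w) = if v = w then 1 else 0 := by
  obtain ⟨g, hg⟩ := LinearMap.exists_leftInverse_of_injective (Finsupp.linearCombination ℝ b)
    (LinearMap.ker_eq_bot.2 h)
  refine ⟨fun v => Finsupp.lapply v ∘ₗ g, fun v w => ?_⟩
  have := LinearMap.congr_fun hg (Finsupp.single w 1)
  simp only [LinearMap.comp_apply, Finsupp.linearCombination_single, one_smul,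
    LinearMap.id_apply] at this
  simp [this, Finsupp.single_apply, eq_comm]

end

end Pool.Agent.P.MP_7bb607_co
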