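import Pool.Agent.P.MP_7bb607_co.Basic

namespace Pool.Agent.P.MP_7bb607_co

open ExteriorAlgebra

noncomputable section

/-- The boundary of the octahedron: vertex `v` is antipodal to `v.rev`. -/
def oct : Finset (Finset (Fin 6)) := Finset.univ.filter fun σ => ∀ v ∈ σ, v.rev ∉ σ

theorem oct_flag : ∀ x v z : Fin 6, ({x, v} : Finset (Fin 6)) ∈ oct → insert z {x, v} ∉ oct →
    ({z, v} : Finset (Fin 6)) ∉ oct ∨ ({z, x} : Finset (Fin 6)) ∉ oct := by
  decide

theorem oct_single : ∀ v : Fin 6, ({v} : Finset (Fin 6)) ∈ oct := by decide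

theorem partA {W : Type} [AddCommGroup W] [Module ℝ W] (b : Module.Basis (Fin 6) ℝ W) :
    homDim oct b 2 1 = 0 := by
  classical
  apply quot_eq_zero
  intro c hc
  have hc0 : bdry oct b 1 1 c = 0 := hc
  show c ∈ LinearMap.range (bdry oct b 2 0)
  have hex : ∀ σ : Finset (Fin 6), ∃ w : W,
      (∀ h : σ ∈ oct ∧ σ.card = 2, ev oct b 2 1 c ⟨σ, h⟩ = cls b 1 σ ⟨ι ℝ w, mem_one w⟩) ∧
      (¬ (σ ∈ oct ∧ σ.card = 2) → w = 0) := by
    intro σ
    by_cases h : σ ∈ oct ∧ σ.card = 2
    · obtain ⟨u, hu⟩ := cls_surj b 1 σ (ev oct b 2 1 c ⟨σ, h⟩)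
      obtain ⟨w, rfl⟩ := exists_one u
      exact ⟨w, fun _ => hu.symm, fun h' => absurd h h'⟩
    · exact ⟨0, fun h' => absurd h' h, fun _ => rfl⟩
  choose w hw hw0 using hex
  have key : ∀ y x v : Fin 6, y ≠ x → y ≠ v → x ≠ v →
      b.coord y (w {x, v}) = b.coord x (w {y, v}) := by
    intro y x v hyx hyv hxv
    have h1 := (bdry_eq_iff oct b 1 1 c (fun σ => ⟨ι ℝ (w σ), mem_one _⟩) (fun σ => hw σ.1 σ.2)
      ⟨{v}, oct_single v, by simp⟩ 0).1 (by rw [hc0]; rfl)
    simp only [extensor_singleton, ZeroMemClass.coe_zero, zero_mul] at h1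
    have h2 : ∑ z : Fin 6, ι ℝ (w {z, v}) * ι ℝ (b z) * ι ℝ (b v) = 0 := by
      rw [← h1]
      symm
      apply Finset.sum_subset (Finset.subset_univ _)
      intro z _ hz
      have : w {z, v} = 0 := by
        apply hw0
        rintro ⟨h3, h4⟩
        apply hz
        simp only [Finset.mem_filter, Finset.mem_univ, true_and, Finset.mem_singleton]
        refine ⟨?_, h3⟩
        rintro rfl
        simp at h4
      simp [this]
    obtain ⟨φ, hφ⟩ := exists_det3 (b.coord y) (b.coord x) (b.coord v)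
    have h3 := congrArg φ h2
    rw [map_sum, map_zero] at h3
    simp only [hφ, Module.Basis.coord_apply, Module.Basis.repr_self, Finsupp.single_apply] at h3
    simp only [hyv.symm, hxv.symm, if_false, if_true, mul_zero, mul_one, add_zero, sub_zero,
      Finset.sum_sub_distrib, mul_ite, Finset.sum_ite_eq', Finset.mem_univ] at h3
    simp only [Module.Basis.coord_apply]
    linarith
  have hT : ∀ U : Finset (Fin 6), ∃ t : ℝ, U.card = 3 → ∀ z ∈ U, b.coord z (w (U.erase z)) = t := by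
    intro U
    by_cases hU : U.card = 3
    · obtain ⟨x, y, z, hxy, hxz, hyz, rfl⟩ := Finset.card_eq_three.1 hU
      refine ⟨b.coord x (w {y, z}), fun _ u hu => ?_⟩
      simp only [Finset.mem_insert, Finset.mem_singleton] at hu
      rcases hu with rfl | rfl | rfl
      · rw [Finset.erase_insert (by simp [hxy, hxz])]
      · rw [Finset.insert_comm, Finset.erase_insert (by simp [hxy.symm, hyz])]
        exact key _ _ _ hxy.symm hyz hxz
      · have : ({x, y, u} : Finset (Fin 6)) = {u, x, y} := by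
          ext; simp only [Finset.mem_insert, Finset.mem_singleton]; tauto
        rw [this, Finset.erase_insert (by simp [hxz.symm, hyz.symm]), Finset.pair_comm y u]
        exact key _ _ _ hxz.symm hyz.symm hxy
    · exact ⟨0, fun h => absurd h hU⟩
  choose T hT using hT
  refine ⟨mkChain oct b 3 0 fun U => ⟨algebraMap ℝ _ (T U), mem_zero _⟩, ?_⟩
  apply chain_ext
  rintro ⟨e, he, he2⟩
  rw [hw e ⟨he, he2⟩]
  refine (bdry_eq_iff oct b 2 0 _ (fun U => ⟨algebraMap ℝ _ (T U), mem_zero _⟩) (fun _ => rfl)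
    ⟨e, he, he2⟩ _).2 ?_
  obtain ⟨x, v, hxv, rfl⟩ := Finset.card_eq_two.1 he2
  have hwe : ι ℝ (w {x, v}) = ∑ z, b.coord z (w {x, v}) • ι ℝ (b z) := by
    conv_lhs => rw [← b.sum_repr (w {x, v})]
    simp only [map_sum, map_smul, Module.Basis.coord_apply]
  simp only [hwe, Finset.sum_mul]
  rw [Finset.sum_filter]
  refine Finset.sum_congr rfl fun z _ => ?_
  by_cases hz : z ∈ ({x, v} : Finset (Fin 6))
  · simp [hz, pt_mul_extensor b hz]
  · have hz' := hz
    simp only [Finset.mem_insert, Finset.mem_singleton, not_or] at hz'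
    by_cases hf : insert z ({x, v} : Finset (Fin 6)) ∈ oct
    · have := hT (insert z {x, v}) (by rw [Finset.card_insert_of_notMem hz, he2]) z (by simp)
      rw [Finset.erase_insert hz] at this
      rw [if_pos ⟨hz, hf⟩, this, Algebra.smul_def]
    · rw [if_neg (fun h => hf h.2)]
      have : b.coord z (w {x, v}) = 0 := by
        rcases oct_flag x v z he hf with h | h
        · rw [key z x v hz'.1 hz'.2 hxv, hw0 _ (fun h' => h h'.1), map_zero]
        · rw [Finset.pair_comm x v, key z v x hz'.2 hz'.1 hxv.symm, hw0 _ (fun h' => h h'.1),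
            map_zero]
      simp [this]

theorem extensor_01 {W : Type} [AddCommGroup W] [Module ℝ W] (Q : Fin 6 → W) :
    extensor Q {0, 1} = ι ℝ (Q 0) * ι ℝ (Q 1) := by
  have : ({0, 1} : Finset (Fin 6)).sort (· ≤ ·) = [0, 1] := by
    rw [Finset.sort_insert (· ≤ ·) (by decide) (by decide), Finset.sort_singleton]
  simp [extensor, this]

theorem partB (Q : Fin 6 → Fin 5 → ℝ)
    (hli : ∀ s : Finset (Fin 6), s.card ≤ 5 → LinearIndependent ℝ fun v : s => Q v) :
    0 < homDim oct Q 2 1 := by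
  classical
  -- a linear dependency
  have hdep : ¬ LinearIndependent ℝ Q := by
    intro h
    have := h.fintype_card_le_finrank
    simp at this
  rw [Fintype.not_linearIndependent_iff] at hdep
  obtain ⟨l, hl, i, hi⟩ := hdep
  have hl1 : l 1 ≠ 0 := by
    intro h1
    have h2 := Fintype.linearIndependent_iff.1 (hli (Finset.univ.erase 1) (by simp))
      (fun v => l v) (by
        rw [Finset.sum_coe_sort (Finset.univ.erase 1) (fun v => l v • Q v),
          Finset.sum_erase _ (by simp [h1])]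
        exact hl)
    by_cases h : i = 1
    · exact hi (h ▸ h1)
    · exact hi (h2 ⟨i, by simp [h]⟩)
  -- the cycle
  let w : Finset (Fin 6) → Fin 5 → ℝ := fun σ =>
    (∑ v ∈ σ \ {0, 5}, l v) • ((if 0 ∈ σ then Q 5 else 0) + (if 5 ∈ σ then Q 0 else 0))
  let c : chain oct Q 2 1 := mkChain oct Q 2 1 fun σ => ⟨ι ℝ (w σ), mem_one _⟩
  have hsum : l 1 • ι ℝ (Q 1) + l 2 • ι ℝ (Q 2) + l 3 • ι ℝ (Q 3) + l 4 • ι ℝ (Q 4) =
      -(l 0 • ι ℝ (Q 0) + l 5 • ι ℝ (Q 5)) := by
    have := congrArg (ι ℝ) hl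
    rw [map_zero, map_sum, Fin.sum_univ_six] at this
    simp only [map_smul] at this
    rw [eq_neg_iff_add_eq_zero, ← this]
    abel
  have hsq : ∀ v, ι ℝ (Q v) * ι ℝ (Q v) = 0 := fun v => ι_sq_zero _
  have hsw : ι ℝ (Q 5) * ι ℝ (Q 0) = -(ι ℝ (Q 0) * ι ℝ (Q 5)) :=
    eq_neg_of_add_eq_zero_left (ι_add_mul_swap _ _)
  have hfin := chain_finite oct Q 2 1
  refine quot_pos _ _ c ?_ ?_
  · show bdry oct Q 1 1 c = 0
    apply chain_ext
    rintro ⟨τ, hτ, hτ1⟩
    refine (bdry_eq_iff oct Q 1 1 c (fun σ => ⟨ι ℝ (w σ), mem_one _⟩) (fun _ => rfl)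
      ⟨τ, hτ, hτ1⟩ 0).2 ?_
    obtain ⟨v, rfl⟩ := Finset.card_eq_one.1 hτ1
    simp only [extensor_singleton, ZeroMemClass.coe_zero, zero_mul]
    have hf0 : Finset.univ.filter (fun x : Fin 6 => x ∉ ({0} : Finset (Fin 6)) ∧
      insert x ({0} : Finset (Fin 6)) ∈ oct) = {1, 2, 3, 4} := by decide
    have hf5 : Finset.univ.filter (fun x : Fin 6 => x ∉ ({5} : Finset (Fin 6)) ∧
      insert x ({5} : Finset (Fin 6)) ∈ oct) = {1, 2, 3, 4} := by decide
    have hmid : ∀ v : Fin 6, v ≠ 0 → v ≠ 5 →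
        ∑ x ∈ Finset.univ.filter (fun x : Fin 6 => x ∉ ({v} : Finset (Fin 6)) ∧
          insert x ({v} : Finset (Fin 6)) ∈ oct), ι ℝ (w {x, v}) * ι ℝ (Q x) * ι ℝ (Q v) = 0 := by
      intro v h0 h5
      have hsub : ({0, 5} : Finset (Fin 6)) ⊆ Finset.univ.filter (fun x : Fin 6 =>
          x ∉ ({v} : Finset (Fin 6)) ∧ insert x ({v} : Finset (Fin 6)) ∈ oct) := by
        revert v; decide
      rw [← Finset.sum_subset hsub]
      · have e0 : ({0, v} : Finset (Fin 6)) \ {0, 5} = {v} := by revert v; decide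
        have e5 : ({5, v} : Finset (Fin 6)) \ {0, 5} = {v} := by revert v; decide
        rw [Finset.sum_pair (by decide)]
        simp [w, e0, e5, h0.symm, h5.symm, hsw]
      · intro x _ hx
        simp only [Finset.mem_insert, Finset.mem_singleton, not_or] at hx
        simp [w, h0.symm, h5.symm, Ne.symm hx.1, Ne.symm hx.2]
    have e : ∀ x y : Fin 6, x ≠ 0 → x ≠ 5 → (y = 0 ∨ y = 5) →
        ({x, y} : Finset (Fin 6)) \ {0, 5} = {x} := by decide
    by_cases h0 : v = 0
    · subst h0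
      rw [hf0]
      have : ∀ x ∈ ({1, 2, 3, 4} : Finset (Fin 6)), ι ℝ (w {x, 0}) * ι ℝ (Q x) * ι ℝ (Q 0) =
          ι ℝ (Q 5) * (l x • ι ℝ (Q x)) * ι ℝ (Q 0) := by
        intro x hx
        have h0 : x ≠ 0 := by revert x; decide
        have h5 : x ≠ 5 := by revert x; decide
        simp [w, e x 0 h0 h5 (Or.inl rfl), h5.symm]
      rw [Finset.sum_congr rfl this, ← Finset.sum_mul, ← Finset.mul_sum]
      rw [Finset.sum_insert (by decide), Finset.sum_insert (by decide), Finset.sum_pair (by decide),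
        ← add_assoc, ← add_assoc, hsum]
      simp [mul_add, hsq, mul_assoc]
    by_cases h5 : v = 5
    · subst h5
      rw [hf5]
      have : ∀ x ∈ ({1, 2, 3, 4} : Finset (Fin 6)), ι ℝ (w {x, 5}) * ι ℝ (Q x) * ι ℝ (Q 5) =
          ι ℝ (Q 0) * (l x • ι ℝ (Q x)) * ι ℝ (Q 5) := by
        intro x hx
        have h0 : x ≠ 0 := by revert x; decide
        have h5 : x ≠ 5 := by revert x; decide
        simp [w, e x 5 h0 h5 (Or.inr rfl), h0.symm]
      rw [Finset.sum_congr rfl this, ← Finset.sum_mul, ← Finset.mul_sum]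
      rw [Finset.sum_insert (by decide), Finset.sum_insert (by decide), Finset.sum_pair (by decide),
        ← add_assoc, ← add_assoc, hsum]
      simp [mul_add, hsq, mul_assoc]
    exact hmid v h0 h5
  · rintro ⟨t, ht⟩
    have hex : ∀ σ : Finset (Fin 6), ∃ a : ℝ, ∀ h : σ ∈ oct ∧ σ.card = 3,
        ev oct Q 3 0 t ⟨σ, h⟩ = cls Q 0 σ ⟨algebraMap ℝ _ a, mem_zero a⟩ := by
      intro σ
      by_cases h : σ ∈ oct ∧ σ.card = 3
      · obtain ⟨u, hu⟩ := cls_surj Q 0 σ (ev oct Q 3 0 t ⟨σ, h⟩)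
        obtain ⟨a, rfl⟩ := exists_zero u
        exact ⟨a, fun _ => hu.symm⟩
      · exact ⟨0, fun h' => absurd h' h⟩
    choose T hT using hex
    have h1 := (bdry_eq_iff oct Q 2 0 t (fun U => ⟨algebraMap ℝ _ (T U), mem_zero _⟩)
      (fun σ => hT σ.1 σ.2) ⟨{0, 1}, by decide, by decide⟩ ⟨ι ℝ (w {0, 1}), mem_one _⟩).1
      (by rw [ht]; rfl)
    have hf : Finset.univ.filter (fun x : Fin 6 => x ∉ ({0, 1} : Finset (Fin 6)) ∧
      insert x ({0, 1} : Finset (Fin 6)) ∈ oct) = {2, 3} := by decide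
    have e1 : ({0, 1} : Finset (Fin 6)) \ {0, 5} = {1} := by decide
    have hw01 : w {0, 1} = l 1 • Q 5 := by simp [w, e1]
    simp only [hf, extensor_01, hw01] at h1
    rw [Finset.sum_pair (by decide)] at h1
    simp only [← Algebra.smul_def, map_smul, smul_mul_assoc, ← mul_assoc] at h1
    have hli5 := hli (Finset.univ.erase 4) (by simp)
    have : Nonempty (Finset.univ.erase (4 : Fin 6)) := ⟨⟨0, by decide⟩⟩
    let b : Module.Basis (Finset.univ.erase (4 : Fin 6)) ℝ (Fin 5 → ℝ) :=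
      basisOfLinearIndependentOfCardEqFinrank hli5 (by simp)
    have hb : ∀ (v : Fin 6) (h : v ∈ Finset.univ.erase (4 : Fin 6)), Q v = b ⟨v, h⟩ :=
      fun v h => by simp [b]
    obtain ⟨φ, hφ⟩ := exists_det3 (b.coord ⟨5, by decide⟩) (b.coord ⟨0, by decide⟩)
      (b.coord ⟨1, by decide⟩)
    have h2 := congrArg φ h1
    rw [hb 0 (by decide), hb 1 (by decide), hb 2 (by decide), hb 3 (by decide),
      hb 5 (by decide)] at h2
    simp only [map_add, map_smul, hφ, Module.Basis.coord_apply, Module.Basis.repr_self,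
      Finsupp.single_apply] at h2
    simp at h2
    exact hl1 h2.symm

/-- An explicit configuration in general position with general projection. -/
def p0 : Fin 6 → Fin 5 → ℝ :=
  ![![0, 0, 0, 0, 0], ![1, 0, 0, 0, 0], ![0, 1, 0, 0, 0], ![0, 0, 1, 0, 0], ![1, 1, 1, 1, 1],
    ![0, 0, 0, 1, 0]]

theorem p0_indep : AffineIndependent ℝ p0 := by
  rw [affineIndependent_iff_of_fintype]
  intro w hw hs
  rw [Finset.weightedVSub_eq_linear_combination _ hw] at hs
  have h0 := congrFun hs 0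
  have h1 := congrFun hs 1
  have h2 := congrFun hs 2
  have h3 := congrFun hs 3
  have h4 := congrFun hs 4
  simp [Fin.sum_univ_six, p0] at h0 h1 h2 h3 h4 hw
  intro i
  fin_cases i <;> simp <;> linarith

theorem q0_indep (s : Finset (Fin 6)) (hs : s.card ≤ 5) :
    AffineIndependent ℝ fun v : s => (Fin.init (p0 v) : Fin 4 → ℝ) := by
  classical
  obtain ⟨j, hj⟩ : ∃ j, j ∉ s := by
    by_contra h
    push Not at h
    rw [Finset.eq_univ_of_forall h] at hs
    simp at hs
  rw [affineIndependent_iff_of_fintype]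
  intro w hw hsum
  rw [Finset.weightedVSub_eq_linear_combination _ hw] at hsum
  let u : Fin 6 → ℝ := fun v => if h : v ∈ s then w ⟨v, h⟩ else 0
  have hu : ∀ v : s, w v = u v := fun v => by simp [u]
  have huj : u j = 0 := by simp [u, hj]
  have hw' : ∑ v, u v = 0 := by
    rw [← hw, ← Finset.sum_subset (Finset.subset_univ s) (fun v _ hv => by simp [u, hv]),
      ← Finset.sum_coe_sort]
    exact Finset.sum_congr rfl fun v _ => (hu v).symm
  have hsum' : ∑ v, u v • (Fin.init (p0 v) : Fin 4 → ℝ) = 0 := by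
    rw [← hsum, ← Finset.sum_subset (Finset.subset_univ s) (fun v _ hv => by simp [u, hv]),
      ← Finset.sum_coe_sort]
    exact Finset.sum_congr rfl fun v _ => by rw [hu v]
  have h0 := congrFun hsum' 0
  have h1 := congrFun hsum' 1
  have h2 := congrFun hsum' 2
  have h3 := congrFun hsum' 3
  simp [Fin.sum_univ_six, p0, Fin.init] at h0 h1 h2 h3 hw'
  have h4 : u 4 = 0 := by
    fin_cases j <;> simp at huj <;> linarith
  intro i
  rw [hu]
  generalize (i : Fin 6) = i
  fin_cases i <;> simp <;> linarith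

theorem main :
    (∃ p : Fin 6 → Fin 5 → ℝ, AffineIndependent ℝ p ∧
      ∀ s : Finset (Fin 6), s.card ≤ 5 →
        AffineIndependent ℝ fun v : s => (Fin.init (p v) : Fin 4 → ℝ)) ∧
    ∀ p : Fin 6 → Fin 5 → ℝ, AffineIndependent ℝ p →
      (∀ s : Finset (Fin 6), s.card ≤ 5 →
        AffineIndependent ℝ fun v : s => (Fin.init (p v) : Fin 4 → ℝ)) →
      betti oct p 3 2 < betti oct (fun v => (Fin.init (p v) : Fin 4 → ℝ)) 3 2 := by
  refine ⟨⟨p0, p0_indep, q0_indep⟩, fun p hp hq => ?_⟩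
  have hli := linIndep_of_affIndep p hp
  have hA := partA (basisOfLinearIndependentOfCardEqFinrank hli (by simp))
  rw [coe_basisOfLinearIndependentOfCardEqFinrank] at hA
  have hA' : betti oct p 3 2 = 0 := hA
  rw [hA']
  exact partB _ fun s hs => linIndep_of_affIndep _ (hq s hs)

end

end Pool.Agent.P.MP_7bb607_co
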