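import Pool.Agent.P.MP_7bb607_co.Ext

namespace Pool.Agent.P.MP_7bb607_co

open ExteriorAlgebra

noncomputable section

variable {n : ℕ} {W : Type} [AddCommGroup W] [Module ℝ W]

theorem mk_eq_zero (Δ : Finset (Finset (Fin n))) (P : Fin n → W) (m k : ℕ)
    (s : Finset (Fin n) → ⋀[ℝ]^k W) : mkChain Δ P m k s = 0 ↔
      ∀ σ ∈ Δ, σ.card = m → (s σ : ExteriorAlgebra ℝ W) * extensor P σ = 0 := by
  have key : ∀ σ, cls P k σ (s σ) = cls P k σ 0 ↔
      (s σ : ExteriorAlgebra ℝ W) * extensor P σ = 0 := fun σ => by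
    rw [cls_eq_cls, ZeroMemClass.coe_zero, zero_mul]
  exact ⟨fun h σ h1 h2 => (key σ).1 (congrArg (fun c => ev Δ P m k c ⟨σ, h1, h2⟩) h),
    fun h => chain_ext _ _ _ _ _ _ fun σ => (key σ.1).2 (h σ.1 σ.2.1 σ.2.2)⟩

theorem mk_mem_cyc (Δ : Finset (Finset (Fin n))) (P : Fin n → W) (m k : ℕ)
    (s : Finset (Fin n) → ⋀[ℝ]^k W) : mkChain Δ P (m + 1) k s ∈ cyc Δ P (m + 1) k ↔
      ∀ τ ∈ Δ, τ.card = m → ∑ x ∈ Finset.univ.filter (fun x => x ∉ τ ∧ insert x τ ∈ Δ),
        (s (insert x τ) : ExteriorAlgebra ℝ W) * ι ℝ (P x) * extensor P τ = 0 := by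
  show bdry Δ P m k _ = 0 ↔ _
  rw [bdry_mk, mk_eq_zero]
  simp only [Submodule.coe_sum, Finset.sum_mul]
  rfl

/-- A nonempty vertex set `A` and a path `t 0, …, t (k + 1)` outside it. -/
structure Sph (n k : ℕ) where
  A : Finset (Fin n)
  t : ℕ → Fin n
  ne : A.Nonempty
  hA : ∀ j ≤ k + 1, t j ∉ A
  ht : ∀ i ≤ k + 1, ∀ j ≤ k + 1, t i = t j → i = j

namespace Sph

variable {k : ℕ} (S : Sph n k)

/-- The simplices of the ball. -/
def H (j : ℕ) : Finset (Fin n) := insert (S.t (j + 1)) (insert (S.t j) S.A)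

open Classical in
/-- The boundary of the join of `A` with the path, and all vertices. -/
def cx : Finset (Finset (Fin n)) := Finset.univ.filter fun σ => σ.card ≤ 1 ∨
  ((∃ j ≤ k, σ ⊆ S.H j) ∧ ∀ j, 1 ≤ j → j ≤ k → ¬insert (S.t j) S.A ⊆ σ)

theorem mem_cx {σ : Finset (Fin n)} : σ ∈ S.cx ↔ σ.card ≤ 1 ∨
    ((∃ j ≤ k, σ ⊆ S.H j) ∧ ∀ j, 1 ≤ j → j ≤ k → ¬insert (S.t j) S.A ⊆ σ) := by
  simp only [cx, Finset.mem_filter, Finset.mem_univ, true_and]

theorem cx_down {σ τ : Finset (Fin n)} (h : σ ∈ S.cx) (h' : τ ⊆ σ) : τ ∈ S.cx :=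
  S.mem_cx.2 ((S.mem_cx.1 h).imp (Finset.card_le_card h').trans fun ⟨⟨j, h1, h2⟩, h3⟩ =>
    ⟨⟨j, h1, h'.trans h2⟩, fun j h4 h5 h6 => h3 j h4 h5 (h6.trans h')⟩)

theorem mem_H {j : ℕ} {x : Fin n} : x ∈ S.H j ↔ x = S.t (j + 1) ∨ x = S.t j ∨ x ∈ S.A := by
  simp [H]

theorem t_mem_H {i j : ℕ} (hi : i ≤ k + 1) (hj : j ≤ k) : S.t i ∈ S.H j ↔ i = j + 1 ∨ i = j := by
  rw [mem_H]
  constructor
  · rintro (h | h | h)
    · exact Or.inl (S.ht _ hi _ (by omega) h)
    · exact Or.inr (S.ht _ hi _ (by omega) h)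
    · exact absurd h (S.hA i hi)
  · rintro (rfl | rfl) <;> simp

theorem t_not {i j : ℕ} (hi : i ≤ k + 1) (hj : j ≤ k + 1) (h : i ≠ j) {B : Finset (Fin n)}
    (hB : B ⊆ S.A) : S.t i ∉ insert (S.t j) B := fun h' =>
  (Finset.mem_insert.1 h').elim (fun e => h (S.ht _ hi _ hj e)) fun e => S.hA i hi (hB e)

theorem card_G {j : ℕ} (hj : j ≤ k + 1) : (insert (S.t j) S.A).card = S.A.card + 1 :=
  Finset.card_insert_of_notMem (S.hA j hj)

theorem card_H {j : ℕ} (hj : j ≤ k) : (S.H j).card = S.A.card + 2 := by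
  rw [H, Finset.card_insert_of_notMem (S.t_not (by omega) (by omega) (by omega) le_rfl),
    S.card_G (by omega)]

theorem card_pos : 0 < S.A.card := Finset.card_pos.2 S.ne

theorem H_not (hk : 1 ≤ k) {σ : Finset (Fin n)} (h : σ ∈ S.cx) : σ.card ≠ S.A.card + 2 := by
  intro hc
  obtain ⟨⟨j, h1, h2⟩, h3⟩ := (S.mem_cx.1 h).resolve_left (by omega)
  obtain rfl := Finset.eq_of_subset_of_card_le h2 (by rw [S.card_H h1, hc])
  rcases Nat.eq_zero_or_pos j with rfl | hj
  · exact h3 1 le_rfl hk (Finset.insert_subset_insert _ (Finset.subset_insert _ _))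
  · exact h3 j hj h1 (Finset.subset_insert _ _)

theorem link {a : Fin n} (ha : a ∈ S.A) {j : ℕ} (hj : j ≤ k + 1) (z : Fin n) :
    (z ∉ insert (S.t j) (S.A.erase a) ∧ insert z (insert (S.t j) (S.A.erase a)) ∈ S.cx) ↔
      z = (if j = 0 then a else S.t (j - 1)) ∨ z = if j = k + 1 then a else S.t (j + 1) := by
  have e := Finset.erase_subset a S.A
  have ha' : a ∉ insert (S.t j) (S.A.erase a) := by
    simp only [Finset.mem_insert, Finset.notMem_erase, or_false]
    exact fun h => S.hA j hj (h ▸ ha)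
  have hG : insert a (insert (S.t j) (S.A.erase a)) = insert (S.t j) S.A := by
    rw [Finset.insert_comm, Finset.insert_erase ha]
  have h1 : ∀ i ≤ k + 1, ∀ l, ¬insert (S.t l) S.A ⊆
      insert (S.t i) (insert (S.t j) (S.A.erase a)) := fun i hi l h =>
    (Finset.mem_insert.1 (h (Finset.mem_insert_of_mem ha))).elim (fun h => S.hA i hi (h ▸ ha)) ha'
  have h2 : j = 0 ∨ j = k + 1 → insert a (insert (S.t j) (S.A.erase a)) ∈ S.cx := fun h => by
    rw [hG]
    refine S.mem_cx.2 (Or.inr ⟨?_, fun l h3 h4 h5 => S.t_not (by omega) hj (by omega) le_rfl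
      (h5 (Finset.mem_insert_self _ _))⟩)
    rcases h with rfl | rfl
    · exact ⟨0, Nat.zero_le _, Finset.subset_insert _ _⟩
    · exact ⟨k, le_rfl, Finset.insert_subset_insert _ (Finset.subset_insert _ _)⟩
  constructor
  · rintro ⟨h3, h4⟩
    obtain ⟨⟨l, h5, h6⟩, h7⟩ := (S.mem_cx.1 h4).resolve_left (by
      rw [Finset.card_insert_of_notMem h3, Finset.card_insert_of_notMem fun h => S.hA j hj (e h)]
      omega)
    have h8 := (S.t_mem_H hj h5).1 (h6 (Finset.mem_insert_of_mem (Finset.mem_insert_self _ _)))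
    rcases S.mem_H.1 (h6 (Finset.mem_insert_self _ _)) with rfl | rfl | h9
    · obtain rfl : j = l := h8.resolve_left fun h => h3 (by simp [h])
      exact Or.inr (if_neg (by omega)).symm
    · obtain rfl : j = l + 1 := h8.resolve_right fun h => h3 (by simp [h])
      exact Or.inl (by simp)
    · obtain rfl : z = a := by
        by_contra hn
        exact h3 (Finset.mem_insert_of_mem (Finset.mem_erase.2 ⟨hn, h9⟩))
      rcases Nat.eq_zero_or_pos j with rfl | h0
      · exact Or.inl (if_pos rfl).symm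
      · have : j = k + 1 := by
          by_contra hn
          exact h7 j h0 (by omega) hG.ge
        exact Or.inr (if_pos this).symm
  · rintro (rfl | rfl) <;> split_ifs with h
    · exact ⟨ha', h2 (Or.inl h)⟩
    · refine ⟨S.t_not (by omega) hj (by omega) e, S.mem_cx.2 (Or.inr
        ⟨⟨j - 1, by omega, ?_⟩, fun l _ _ => h1 _ (by omega) l⟩)⟩
      rw [H, Nat.sub_add_cancel (by omega), Finset.insert_comm]
      exact Finset.insert_subset_insert _ (Finset.insert_subset_insert _ e)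
    · exact ⟨ha', h2 (Or.inr h)⟩
    · exact ⟨S.t_not (by omega) hj (by omega) e, S.mem_cx.2 (Or.inr ⟨⟨j, by omega,
        Finset.insert_subset_insert _ (Finset.insert_subset_insert _ e)⟩,
          fun l _ _ => h1 _ (by omega) l⟩)⟩

/-- With independent vertices there is no homology. -/
theorem homDim_eq_zero (b : Fin n → W) (hb : LinearIndependent ℝ b) :
    homDim S.cx b (S.A.card + 1) k = 0 := by
  obtain ⟨f, hf⟩ := exists_dual b hb
  refine quot_eq_zero _ _ fun c hc => ?_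
  obtain ⟨s, rfl⟩ := exists_mk _ _ _ _ c
  obtain ⟨ω, hω⟩ : ∃ ω : Finset (Fin n) → ExteriorAlgebra ℝ W,
    ∀ σ, ω σ = s σ * extensor b σ := ⟨_, fun _ => rfl⟩
  have step : ∀ a ∈ S.A, ∀ j ≤ k + 1, ∀ x y, x = (if j = 0 then a else S.t (j - 1)) →
      y = (if j = k + 1 then a else S.t (j + 1)) →
      (∃ e : ℝ, ω (insert x (insert (S.t j) (S.A.erase a))) =
        e • ω (insert y (insert (S.t j) (S.A.erase a)))) ∧
      ∃ e : ℝ, ω (insert y (insert (S.t j) (S.A.erase a))) =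
        e • ω (insert x (insert (S.t j) (S.A.erase a))) := by
    intro a ha j hj x y hx hy
    have h1 := (S.link ha hj x).2 (Or.inl hx)
    have h2 := (S.link ha hj y).2 (Or.inr hy)
    have hxy : x ≠ y := by
      rw [hx, hy]
      split_ifs with h3 h4 h4
      · omega
      · exact fun h => S.hA (j + 1) (by omega) (h ▸ ha)
      · exact fun h => S.hA (j - 1) (by omega) (h ▸ ha)
      · exact fun h => by have := S.ht _ (by omega) _ (by omega) h; omega
    have h3 := (mk_mem_cyc _ _ _ _ _).1 hc _ (S.cx_down h1.2 (Finset.subset_insert _ _)) (by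
      rw [Finset.card_insert_of_notMem fun h => S.hA j hj (Finset.mem_of_mem_erase h),
        Finset.card_erase_add_one ha])
    rw [show Finset.univ.filter _ = {x, y} from Finset.ext fun z => by
      rw [Finset.mem_filter, S.link ha hj, ← hx, ← hy]; simp, Finset.sum_pair hxy,
      mul_assoc, mul_assoc] at h3
    obtain ⟨⟨e1, p1⟩, e2, p2⟩ := ext_insert b h1.1
    obtain ⟨⟨e3, p3⟩, e4, p4⟩ := ext_insert b h2.1
    refine ⟨⟨-(e2 * e3), ?_⟩, -(e4 * e1), ?_⟩
    · rw [hω, hω, p2, mul_smul_comm, eq_neg_of_add_eq_zero_left h3, p3, mul_smul_comm]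
      module
    · rw [hω, hω, p4, mul_smul_comm, eq_neg_of_add_eq_zero_right h3, p1, mul_smul_comm]
      module
  have hG : ∀ a ∈ S.A, ∀ j, insert a (insert (S.t j) (S.A.erase a)) = insert (S.t j) S.A :=
    fun a ha j => by rw [Finset.insert_comm, Finset.insert_erase ha]
  have chain : ∀ a ∈ S.A, ∀ j ≤ k,
      (∃ e : ℝ, ω (insert (S.t 0) S.A) =
        e • ω (insert (S.t (j + 1)) (insert (S.t j) (S.A.erase a)))) ∧
      ∃ e : ℝ, ω (insert (S.t (j + 1)) (insert (S.t j) (S.A.erase a))) =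
        e • ω (insert (S.t 0) S.A) := by
    intro a ha j hj
    induction j with
    | zero =>
      have := step a ha 0 (by omega) a (S.t 1) (by simp) (by simp)
      rwa [hG a ha] at this
    | succ j ih =>
      obtain ⟨⟨e1, p1⟩, e2, p2⟩ := ih (by omega)
      obtain ⟨⟨e3, p3⟩, e4, p4⟩ := step a ha (j + 1) (by omega) (S.t j) (S.t (j + 1 + 1))
        (by simp) (if_neg (by omega)).symm
      rw [Finset.insert_comm] at p1 p2
      exact ⟨⟨e1 * e3, by rw [p1, p3, smul_smul]⟩, e4 * e2, by rw [p4, p2, smul_smul]⟩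
  obtain ⟨a₀, ha₀⟩ := S.ne
  have h0 : ω (insert (S.t 0) S.A) = 0 := by
    refine eq_zero_of_kill b f hf (k + (S.A.card + 1))
      (S.A ∪ (Finset.range (k + 2)).image S.t) ?_ _ ?_ fun v hv => ?_
    · rw [Finset.card_union_of_disjoint (Finset.disjoint_right.2 fun v hv => by
        obtain ⟨j, hj, rfl⟩ := Finset.mem_image.1 hv
        exact S.hA j (by simp at hj; omega)), Finset.card_image_of_injOn fun i hi j hj =>
          S.ht i (by simp at hi; omega) j (by simp at hj; omega), Finset.card_range]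
      omega
    · rw [hω, exteriorPower, pow_add]
      exact Submodule.mul_mem_mul (s _).2 (S.card_G (Nat.zero_le _) ▸ ext_mem b _)
    · rcases Finset.mem_union.1 hv with hv | hv
      · rw [hω, mul_assoc, ext_mul_pt b (Finset.mem_insert_of_mem hv), mul_zero]
      · obtain ⟨j, hj, rfl⟩ := Finset.mem_image.1 hv
        rcases j with _ | j
        · rw [hω, mul_assoc, ext_mul_pt b (Finset.mem_insert_self _ _), mul_zero]
        · obtain ⟨e, he⟩ := (chain a₀ ha₀ j (by simp at hj; omega)).1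
          rw [he, hω, smul_mul_assoc, mul_assoc, ext_mul_pt b (Finset.mem_insert_self _ _),
            mul_zero, smul_zero]
  have h1 : ∀ a ∈ S.A, ∀ j ≤ k, ω (insert (S.t (j + 1)) (insert (S.t j) (S.A.erase a))) = 0 :=
    fun a ha j hj => by
      obtain ⟨e, he⟩ := (chain a ha j hj).2
      rw [he, h0, smul_zero]
  suffices h : mkChain S.cx b _ k s = 0 by rw [h]; exact zero_mem _
  refine (mk_eq_zero _ _ _ _ _).2 fun σ h2 h3 => ?_
  rw [← hω]
  obtain ⟨⟨j, h4, h5⟩, h6⟩ := (S.mem_cx.1 h2).resolve_left (by have := S.card_pos; omega)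
  obtain ⟨x, h7, h8⟩ := Finset.exists_eq_insert_iff.2 ⟨h5, by rw [h3, S.card_H h4]⟩
  have h9 : σ = (S.H j).erase x := by rw [← h8, Finset.erase_insert h7]
  rcases S.mem_H.1 (h8 ▸ Finset.mem_insert_self x σ) with rfl | rfl | hx
  · rw [H, Finset.erase_insert (S.t_not (by omega) (by omega) (by omega) le_rfl)] at h9
    obtain rfl : j = 0 := by
      by_contra hn
      exact h6 j (by omega) h4 h9.ge
    rw [h9, h0]
  · rw [H, Finset.insert_comm,
      Finset.erase_insert (S.t_not (by omega) (by omega) (by omega) le_rfl)] at h9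
    obtain rfl : j = k := by
      by_contra hn
      exact h6 (j + 1) (by omega) (by omega) h9.ge
    obtain ⟨e, he⟩ := (step a₀ ha₀ (j + 1) le_rfl (S.t j) a₀ (by simp) (by simp)).2
    rw [hG a₀ ha₀, Finset.insert_comm, h1 a₀ ha₀ j le_rfl, smul_zero] at he
    rw [h9, he]
  · rw [H, Finset.erase_insert_of_ne (ne_of_mem_of_not_mem hx (S.hA (j + 1) (by omega))).symm,
      Finset.erase_insert_of_ne (ne_of_mem_of_not_mem hx (S.hA j (by omega))).symm] at h9
    rw [h9, h1 x hx j h4]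

theorem coface {i j : ℕ} (hi : i ≤ k + 1) (hj : j ≤ k) (x : Fin n) :
    (x ∉ insert (S.t i) S.A ∧ insert x (insert (S.t i) S.A) = S.H j) ↔
      (j = i ∧ x = S.t (j + 1)) ∨ (j + 1 = i ∧ x = S.t j) := by
  constructor
  · rintro ⟨h1, h2⟩
    have h3 := (S.t_mem_H hi hj).1 (h2 ▸ Finset.mem_insert_of_mem (Finset.mem_insert_self _ _))
    rcases S.mem_H.1 (h2 ▸ Finset.mem_insert_self x _) with rfl | rfl | h4
    · exact Or.inl ⟨(h3.resolve_left fun h => h1 (by simp [h])).symm, rfl⟩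
    · exact Or.inr ⟨(h3.resolve_right fun h => h1 (by simp [h])).symm, rfl⟩
    · exact absurd (Finset.mem_insert_of_mem h4) h1
  · rintro (⟨rfl, rfl⟩ | ⟨rfl, rfl⟩)
    · exact ⟨S.t_not (by omega) hi (by omega) le_rfl, rfl⟩
    · exact ⟨S.t_not (by omega) hi (by omega) le_rfl, Finset.insert_comm _ _ _⟩

/-- With one linear relation there is a nonzero cycle. -/
theorem homDim_pos [Module.Finite ℝ W] {k : ℕ} (S : Sph n (k + 1)) (Q : Fin n → W)
    (f : Fin n → Module.Dual ℝ W)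
    (hf : ∀ v w, v ≠ S.t (k + 2) → w ≠ S.t (k + 2) → f v (Q w) = if v = w then 1 else 0)
    (μ : ℕ → ℝ) (hμ : μ 0 ≠ 0) (l : Fin n → ℝ) (hQ : Q (S.t (k + 2)) =
      ∑ j ∈ Finset.range (k + 2), μ j • Q (S.t j) + ∑ a ∈ S.A, l a • Q a) :
    0 < homDim S.cx Q (S.A.card + 1) (k + 1) := by
  classical
  have := chain_finite S.cx Q (S.A.card + 1) (k + 1)
  obtain ⟨L, hL⟩ : ∃ L, L = (List.range (k + 2)).map S.t := ⟨_, rfl⟩
  have mL : ∀ j ≤ k + 1, S.t j ∈ L := fun j hj =>
    hL ▸ List.mem_map_of_mem (List.mem_range.2 (by omega))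
  have lL : L.length = k + 2 := by simp [hL]
  have hω : pl Q L * extensor Q S.A ≠ 0 := by
    have h1 : ∀ v ∈ L, ∃ j ≤ k + 1, S.t j = v := fun v hv => by
      obtain ⟨j, h1, h2⟩ := List.mem_map.1 (hL ▸ hv)
      exact ⟨j, by simp at h1; omega, h2⟩
    have h2 : ∀ v ∈ L ++ S.A.sort (· ≤ ·), v ≠ S.t (k + 2) := fun v hv e => by
      rcases List.mem_append.1 hv with hv | hv
      · obtain ⟨j, h2, rfl⟩ := h1 v hv
        have := S.ht _ (by omega) _ le_rfl e
        omega
      · exact S.hA _ le_rfl (e ▸ (Finset.mem_sort _).1 hv)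
    refine (pl_append Q L _).symm.trans_ne (pl_ne_zero Q f _ (List.nodup_append.2
      ⟨hL ▸ List.nodup_range.map_on fun i hi j hj => S.ht i (by simp at hi; omega) j
        (by simp at hj; omega), Finset.sort_nodup _ _, fun v hv w hw e => ?_⟩)
      fun v hv w hw => hf v w (h2 v hv) (h2 w hw))
    obtain ⟨j, h2, rfl⟩ := h1 v hv
    exact S.hA j (by omega) (e ▸ (Finset.mem_sort _).1 hw)
  have hy : ∀ j, ∃ y : ⋀[ℝ]^k W, j ≤ k + 1 → y * ι ℝ (Q (S.t j)) * ι ℝ (Q (S.t (j + 1))) *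
      extensor Q S.A = pl Q L * extensor Q S.A := fun j => by
    rcases lt_trichotomy j (k + 1) with h | rfl | h
    · obtain ⟨y, h1, -⟩ := exists_split Q lL (mL j h.le) (mL (j + 1) h) fun e => by
        have := S.ht _ (by omega) _ (by omega) e
        omega
      exact ⟨y, fun _ => by rw [h1]⟩
    · obtain ⟨y, h1, h2⟩ := exists_split Q lL (mL _ le_rfl) (mL 0 (by omega)) fun e => by
        have := S.ht _ (by omega) _ (by omega) e
        omega
      refine ⟨(μ 0)⁻¹ • y, fun _ => ?_⟩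
      rw [hQ, map_add, map_sum, map_sum, mul_add, add_mul, Finset.mul_sum, Finset.mul_sum,
        Finset.sum_mul, Finset.sum_mul, Finset.sum_eq_zero (s := S.A) fun a ha => by
          rw [map_smul, mul_smul_comm, smul_mul_assoc, mul_assoc, pt_mul_extensor Q ha, mul_zero,
            smul_zero], add_zero, Finset.sum_eq_single_of_mem 0 (by simp)]
      · rw [h1, map_smul, Submodule.coe_smul, mul_smul_comm, smul_mul_assoc, smul_mul_assoc,
          smul_mul_assoc, smul_mul_assoc, smul_smul, mul_inv_cancel₀ hμ, one_smul]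
      · intro i hi h0
        rw [map_smul, Submodule.coe_smul, mul_smul_comm, smul_mul_assoc _ (y : ExteriorAlgebra ℝ W),
          smul_mul_assoc _ ((y : ExteriorAlgebra ℝ W) * _), mul_assoc (y : ExteriorAlgebra ℝ W)]
        rcases eq_or_ne i (k + 1) with rfl | h3
        · simp
        · rw [eq_neg_of_add_eq_zero_left (ι_add_mul_swap _ _), mul_neg, ← mul_assoc,
            h2 _ (mL i (by simp at hi; omega))
              (fun e => h3 (S.ht _ (by simp at hi; omega) _ (by omega) e))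
              fun e => h0 (S.ht _ (by simp at hi; omega) _ (by omega) e)]
          simp
    · exact ⟨0, fun h' => absurd h' h.not_ge⟩
  choose y hy using hy
  obtain ⟨s, hs⟩ : ∃ s : Finset (Fin n) → ⋀[ℝ]^(k + 1) W, ∀ σ, (s σ : ExteriorAlgebra ℝ W) =
      ∑ j ∈ Finset.range (k + 2), ∑ x, if x ∉ σ ∧ insert x σ = S.H j then
        (y j : ExteriorAlgebra ℝ W) * ι ℝ (Q x) else 0 :=
    ⟨fun σ => ∑ j ∈ Finset.range (k + 2), ∑ x, if x ∉ σ ∧ insert x σ = S.H j then
        wedgeWith k (Q x) (y j) else 0, fun _ => by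
      simp only [Submodule.coe_sum, apply_ite Subtype.val]
      rfl⟩
  have hG : ∀ i ≤ k + 2, (s (insert (S.t i) S.A) : ExteriorAlgebra ℝ W) =
      ∑ j ∈ Finset.range (k + 2), ((if j = i then y j * ι ℝ (Q (S.t (j + 1))) else 0) +
        if j + 1 = i then y j * ι ℝ (Q (S.t j)) else 0) := fun i hi => by
    rw [hs]
    refine Finset.sum_congr rfl fun j hj => ?_
    simp only [S.coface hi (show j ≤ k + 1 by simp at hj; omega)]
    by_cases h1 : j = i
    · simp [h1]
    · by_cases h2 : j + 1 = i <;> simp [h1, h2]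
  refine quot_pos _ _ (mkChain _ _ _ _ s) ((mk_mem_cyc _ _ _ _ _).2 fun τ h1 h2 => ?_) ?_
  · have h3 : ∑ x ∈ Finset.univ.filter (· ∉ τ),
        (s (insert x τ) : ExteriorAlgebra ℝ W) * ι ℝ (Q x) = 0 := by
      obtain ⟨g, hg⟩ : ∃ g : Fin n → Fin n → ExteriorAlgebra ℝ W, ∀ x z, g x z =
          ∑ j ∈ Finset.range (k + 2), if (x ∉ τ ∧ z ∉ τ ∧ z ≠ x) ∧ insert z (insert x τ) = S.H j
            then y j * (ι ℝ (Q z) * ι ℝ (Q x)) else 0 := ⟨_, fun _ _ => rfl⟩
      have e1 : ∑ x, ∑ z, g x z + ∑ x, ∑ z, g x z = 0 := by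
        nth_rewrite 2 [Finset.sum_comm]
        simp only [← Finset.sum_add_distrib, hg]
        refine Finset.sum_eq_zero fun x _ => Finset.sum_eq_zero fun z _ =>
          Finset.sum_eq_zero fun j _ => ?_
        rw [Finset.insert_comm x z]
        by_cases h : (x ∉ τ ∧ z ∉ τ ∧ z ≠ x) ∧ insert z (insert x τ) = S.H j
        · rw [if_pos h, if_pos ⟨⟨h.1.2.1, h.1.1, h.1.2.2.symm⟩, h.2⟩, ← mul_add, ι_add_mul_swap,
            mul_zero]
        · rw [if_neg h, if_neg fun h' => h ⟨⟨h'.1.2.1, h'.1.1, h'.1.2.2.symm⟩, h'.2⟩, add_zero]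
      rw [← two_smul ℝ, smul_eq_zero_iff_right two_ne_zero] at e1
      rw [← e1, Finset.sum_filter]
      refine Finset.sum_congr rfl fun x _ => ?_
      simp only [hg, hs, Finset.sum_mul]
      rw [Finset.sum_comm (s := Finset.univ)]
      by_cases hx : x ∈ τ
      · simp [hx]
      · simp [hx, mul_assoc, and_comm]
    rw [← zero_mul (extensor Q τ), ← h3, Finset.sum_mul]
    refine Finset.sum_subset (fun x hx => ?_) fun x h4 h5 => ?_
    · exact Finset.mem_filter.2 ⟨Finset.mem_univ _, (Finset.mem_filter.1 hx).2.1⟩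
    have h6 := (Finset.mem_filter.1 h4).2
    have h7 : insert x τ ∉ S.cx := fun h => h5 (Finset.mem_filter.2 ⟨Finset.mem_univ _, h6, h⟩)
    obtain ⟨e, he⟩ := (ext_insert Q h6).1
    rw [mul_assoc, he, mul_smul_comm]
    by_cases h8 : ∃ j ≤ k + 1, insert x τ ⊆ S.H j
    · obtain ⟨i, i1, i2, i3⟩ : ∃ i, 1 ≤ i ∧ i ≤ k + 1 ∧ insert (S.t i) S.A ⊆ insert x τ := by
        by_contra hn
        exact h7 (S.mem_cx.2 (Or.inr ⟨h8, fun j j1 j2 j3 => hn ⟨j, j1, j2, j3⟩⟩))
      obtain ⟨i, rfl⟩ : ∃ i', i = i' + 1 := ⟨i - 1, by omega⟩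
      obtain ⟨e', he'⟩ := (ext_insert Q (S.hA (i + 1) (by omega))).2
      rw [← Finset.eq_of_subset_of_card_le i3 (by
        rw [S.card_G (by omega), Finset.card_insert_of_notMem h6, h2]), hG _ (by omega), he',
        Finset.sum_add_distrib, Finset.sum_ite_eq', if_pos (by simp; omega)]
      simp only [Nat.add_right_cancel_iff]
      rw [Finset.sum_ite_eq', if_pos (by simp; omega), mul_smul_comm, add_mul, ← mul_assoc,
        ← mul_assoc, hy i (by omega), mul_assoc (y _ : ExteriorAlgebra ℝ W),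
        eq_neg_of_add_eq_zero_left (ι_add_mul_swap _ _), mul_neg, neg_mul, ← mul_assoc,
        hy _ i2, neg_add_cancel, smul_zero, smul_zero]
    · have h9 : (s (insert x τ) : ExteriorAlgebra ℝ W) = 0 := by
        rw [hs]
        refine Finset.sum_eq_zero fun j hj => Finset.sum_eq_zero fun z _ => if_neg fun h => ?_
        exact h8 ⟨j, by simp at hj; omega, h.2 ▸ Finset.subset_insert _ _⟩
      rw [h9, zero_mul, smul_zero]
  · rintro ⟨z, hz⟩
    rw [show z = 0 from chain_ext _ _ _ _ _ _ fun σ => absurd σ.2.2 (S.H_not (by omega) σ.2.1),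
      map_zero, eq_comm, mk_eq_zero] at hz
    obtain ⟨a, ha⟩ := S.ne
    have h1 := hz (insert (S.t 0) S.A) (by
      have := ((S.link ha (Nat.zero_le _) a).2 (Or.inl (if_pos rfl).symm)).2
      rwa [Finset.insert_comm, Finset.insert_erase ha] at this) (S.card_G (Nat.zero_le _))
    obtain ⟨e, he⟩ := (ext_insert Q (S.hA 0 (Nat.zero_le _))).1
    rw [hG 0 (Nat.zero_le _)] at h1
    simp only [Nat.add_one_ne_zero, if_false, add_zero, Finset.sum_ite_eq', Finset.mem_range,
      Nat.zero_lt_succ, if_true] at h1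
    apply hω
    rw [← hy 0 (Nat.zero_le _), mul_assoc (y _ : ExteriorAlgebra ℝ W),
      eq_neg_of_add_eq_zero_left (ι_add_mul_swap _ _), mul_neg, neg_mul, ← mul_assoc, mul_assoc,
      he, mul_smul_comm, h1, smul_zero, neg_zero]

end Sph

end

end Pool.Agent.P.MP_7bb607_co
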