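import Pool.Agent.P.MP_7bb607_co.Basic

namespace Pool.Agent.P.MP_7bb607_co

open ExteriorAlgebra

noncomputable section

variable {n : ℕ} {W W' : Type} [AddCommGroup W] [Module ℝ W] [AddCommGroup W'] [Module ℝ W']

theorem quot_le {V V' : Type} [AddCommGroup V] [Module ℝ V] [Module.Finite ℝ V]
    [AddCommGroup V'] [Module ℝ V'] (f : V →ₗ[ℝ] V') (Z B : Submodule ℝ V)
    (Z' B' : Submodule ℝ V') (h1 : ∀ x ∈ Z, f x ∈ Z') (h2 : ∀ x ∈ B, f x ∈ B')
    (h3 : ∀ y ∈ Z', ∃ x ∈ Z, f x = y) :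
    Module.finrank ℝ (Z' ⧸ B'.submoduleOf Z') ≤ Module.finrank ℝ (Z ⧸ B.submoduleOf Z) := by
  refine LinearMap.finrank_le_finrank_of_surjective
    (f := Submodule.mapQ (B.submoduleOf Z) (B'.submoduleOf Z') (f.restrict h1)
      fun x hx => h2 x hx) fun y => ?_
  obtain ⟨⟨y, hy⟩, rfl⟩ := Submodule.Quotient.mk_surjective _ y
  obtain ⟨x, hx, rfl⟩ := h3 y hy
  exact ⟨Submodule.Quotient.mk ⟨x, hx⟩, rfl⟩

/-- The map induced on exterior powers. -/
def mp (π : W →ₗ[ℝ] W') (k : ℕ) : ⋀[ℝ]^k W →ₗ[ℝ] ⋀[ℝ]^k W' :=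
  (map π).toLinearMap.restrict fun x hx => by
    have := Submodule.mem_map_of_mem (f := (map π).toLinearMap) hx
    rw [exteriorPower, Submodule.map_pow, ι_range_map_map] at this
    exact pow_le_pow_left' (LinearMap.map_le_range) k this

theorem coe_mp (π : W →ₗ[ℝ] W') (k : ℕ) (x : ⋀[ℝ]^k W) :
    (mp π k x : ExteriorAlgebra ℝ W') = map π x := rfl

theorem map_extensor (π : W →ₗ[ℝ] W') (P : Fin n → W) (σ : Finset (Fin n)) :
    map π (extensor P σ) = extensor (fun v => π (P v)) σ := by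
  simp [extensor, map_list_prod, Function.comp_def]

/-- The chain map induced by a linear map. -/
def cm (π : W →ₗ[ℝ] W') (Δ : Finset (Finset (Fin n))) (P : Fin n → W) (m k : ℕ) :
    chain Δ P m k →ₗ[ℝ] chain Δ (fun v => π (P v)) m k :=
  LinearMap.pi fun σ => (Submodule.mapQ (annih P k σ.1) (annih (fun v => π (P v)) k σ.1) (mp π k)
    fun x hx => by
      have h : (x : ExteriorAlgebra ℝ W) * extensor P σ.1 = 0 := hx
      show map π x * extensor _ σ.1 = 0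
      rw [← map_extensor, ← map_mul, h, map_zero]) ∘ₗ
    LinearMap.proj (φ := fun σ : {σ : Finset (Fin n) // σ ∈ Δ ∧ σ.card = m} => coef P k σ.1) σ

theorem cm_mk (π : W →ₗ[ℝ] W') (Δ : Finset (Finset (Fin n))) (P : Fin n → W) (m k : ℕ)
    (s : Finset (Fin n) → ⋀[ℝ]^k W) :
    cm π Δ P m k (mkChain Δ P m k s) = mkChain Δ _ m k fun σ => mp π k (s σ) := rfl

theorem exists_mk (Δ : Finset (Finset (Fin n))) (P : Fin n → W) (m k : ℕ) (c : chain Δ P m k) :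
    ∃ s, c = mkChain Δ P m k s := by
  classical
  have h : ∀ σ : {σ : Finset (Fin n) // σ ∈ Δ ∧ σ.card = m}, ∃ u : ⋀[ℝ]^k W,
      cls P k σ.1 u = ev Δ P m k c σ := fun σ => cls_surj P k σ.1 _
  choose u hu using h
  exact ⟨fun σ => if h : σ ∈ Δ ∧ σ.card = m then u ⟨σ, h⟩ else 0,
    chain_ext _ _ _ _ _ _ fun σ => by rw [ev_mkChain, dif_pos σ.2, hu]⟩

theorem bdry_mk (Δ : Finset (Finset (Fin n))) (P : Fin n → W) (m k : ℕ)
    (s : Finset (Fin n) → ⋀[ℝ]^k W) : bdry Δ P m k (mkChain Δ P (m + 1) k s) =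
      mkChain Δ P m (k + 1) fun τ => ∑ x ∈ Finset.univ.filter (fun x => x ∉ τ ∧ insert x τ ∈ Δ),
        wedgeWith k (P x) (s (insert x τ)) :=
  chain_ext _ _ _ _ _ _ fun τ => bdry_apply Δ P m k _ s (fun _ => rfl) τ

theorem cm_bdry (π : W →ₗ[ℝ] W') (Δ : Finset (Finset (Fin n))) (P : Fin n → W) (m k : ℕ)
    (c : chain Δ P (m + 1) k) :
    cm π Δ P m (k + 1) (bdry Δ P m k c) = bdry Δ _ m k (cm π Δ P (m + 1) k c) := by
  obtain ⟨s, rfl⟩ := exists_mk Δ P _ _ c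
  rw [bdry_mk, cm_mk, cm_mk, bdry_mk]
  congr 1
  funext τ
  rw [map_sum]
  exact Finset.sum_congr rfl fun x _ => Subtype.ext (by
    show map π (_ * _) = _ * _
    rw [map_mul, map_apply_ι]
    rfl)

theorem homDim_le [Module.Finite ℝ W] (π : W →ₗ[ℝ] W') (Δ : Finset (Finset (Fin n)))
    (P : Fin n → W) (m k : ℕ)
    (h : ∀ y ∈ cyc Δ (fun v => π (P v)) m k, ∃ x ∈ cyc Δ P m k, cm π Δ P m k x = y) :
    homDim Δ (fun v => π (P v)) m k ≤ homDim Δ P m k := by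
  have := chain_finite Δ P m k
  refine quot_le (cm π Δ P m k) _ _ _ _ (fun x hx => ?_) (fun x hx => ?_) h
  · rcases m with _ | m
    · trivial
    · show bdry Δ _ m k _ = 0
      rw [← cm_bdry, show bdry Δ P m k x = 0 from hx, map_zero]
  · rcases k with _ | k
    · rw [show x = 0 from hx, map_zero]
      exact zero_mem _
    · obtain ⟨y, rfl⟩ := hx
      exact ⟨_, (cm_bdry π Δ P m k y).symm⟩

theorem mp_mp (π : W →ₗ[ℝ] W') (s : W' →ₗ[ℝ] W) (h : π ∘ₗ s = LinearMap.id) (k : ℕ)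
    (x : ⋀[ℝ]^k W') : mp π k (mp s k x) = x := Subtype.ext (by
  rw [coe_mp, coe_mp, ← AlgHom.comp_apply, map_comp_map, h, map_id]
  rfl)

theorem homDim_zero_le [Module.Finite ℝ W] (π : W →ₗ[ℝ] W') (s : W' →ₗ[ℝ] W)
    (h : π ∘ₗ s = LinearMap.id) (Δ : Finset (Finset (Fin n))) (P : Fin n → W) (k : ℕ) :
    homDim Δ (fun v => π (P v)) 0 k ≤ homDim Δ P 0 k := by
  refine homDim_le π Δ P 0 k fun y _ => ?_
  obtain ⟨c, rfl⟩ := exists_mk Δ _ _ _ y
  exact ⟨mkChain Δ P 0 k fun σ => mp s k (c σ), trivial, by simp only [cm_mk, mp_mp π s h]⟩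

theorem exists_sum_mul (Q : Fin n → W') (hQ : Submodule.span ℝ (Set.range Q) = ⊤) (k : ℕ)
    (y : ⋀[ℝ]^(k + 1) W') :
    ∃ z : Fin n → ⋀[ℝ]^k W', (y : ExteriorAlgebra ℝ W') = ∑ v, z v * ι ℝ (Q v) := by
  obtain ⟨y, hy⟩ := y
  have hy' := hy
  rw [exteriorPower, pow_succ] at hy'
  refine Submodule.mul_induction_on
    (C := fun y => ∃ z : Fin n → ⋀[ℝ]^k W', y = ∑ v, z v * ι ℝ (Q v)) hy' ?_ ?_
  · rintro a ha _ ⟨w, rfl⟩
    obtain ⟨c, rfl⟩ := (Submodule.mem_span_range_iff_exists_fun ℝ).1 (hQ ▸ Submodule.mem_top : w ∈ _)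
    exact ⟨fun v => c v • ⟨a, ha⟩, by simp [Finset.mul_sum]⟩
  · rintro _ _ ⟨z, rfl⟩ ⟨z', rfl⟩
    exact ⟨z + z', by simp [add_mul, Finset.sum_add_distrib]⟩

theorem mem_cyc_one {Δ : Finset (Finset (Fin n))} (h0 : ∅ ∈ Δ) (h1 : ∀ v, {v} ∈ Δ)
    (P : Fin n → W) (k : ℕ) (c : Finset (Fin n) → ⋀[ℝ]^k W) :
    mkChain Δ P 1 k c ∈ cyc Δ P 1 k ↔
      ∑ v, (c {v} : ExteriorAlgebra ℝ W) * ι ℝ (P v) = 0 := by
  have key := bdry_eq_iff Δ P 0 k (mkChain Δ P 1 k c) c (fun _ => rfl) ⟨∅, h0, rfl⟩ 0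
  simp only [Finset.notMem_empty, not_false_eq_true, insert_empty_eq, h1, and_self,
    Finset.filter_true, extensor, Finset.sort_empty, List.map_nil, List.prod_nil, mul_one,
    ZeroMemClass.coe_zero] at key
  rw [← key]
  refine ⟨fun h => ?_, fun h => chain_ext _ _ _ _ _ _ fun τ => ?_⟩
  · rw [show bdry Δ P 0 k _ = 0 from h]
    rfl
  · obtain ⟨τ, h2, h3⟩ := τ
    obtain rfl := Finset.card_eq_zero.1 h3
    exact h

theorem homDim_one_le [Module.Finite ℝ W] (π : W →ₗ[ℝ] W') (s : W' →ₗ[ℝ] W)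
    (h : π ∘ₗ s = LinearMap.id) (e : W) (he : π e = 0) (P : Fin n → W) (a : Fin n → ℝ)
    (hP : ∀ v, P v = s (π (P v)) + a v • e)
    (hQ : Submodule.span ℝ (Set.range fun v => π (P v)) = ⊤) {Δ : Finset (Finset (Fin n))}
    (h0 : ∅ ∈ Δ) (h1 : ∀ v, {v} ∈ Δ) (k : ℕ) :
    homDim Δ (fun v => π (P v)) 1 (k + 1) ≤ homDim Δ P 1 (k + 1) := by
  refine homDim_le π Δ P 1 _ fun y hy => ?_
  obtain ⟨c, rfl⟩ := exists_mk Δ _ _ _ y
  rw [mem_cyc_one h0 h1] at hy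
  obtain ⟨z, hz⟩ := exists_sum_mul _ hQ k (∑ v, a v • c {v})
  refine ⟨mkChain Δ P 1 _ fun σ => mp s _ (c σ) + ∑ v ∈ σ, wedgeWith k e (mp s k (z v)),
    (mem_cyc_one h0 h1 _ _ _).2 ?_, ?_⟩
  · have e1 := congrArg (map s) hy
    have e2 := congrArg (fun x => map s x * ι ℝ e) hz
    simp only [map_sum, map_mul, map_apply_ι, map_zero, Submodule.coe_sum, Submodule.coe_smul,
      map_smul, Finset.sum_mul] at e1 e2
    have e3 : ∀ v, ((mp s _ (c {v}) + ∑ v ∈ {v}, wedgeWith k e (mp s k (z v)) :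
        ⋀[ℝ]^(k + 1) W) : ExteriorAlgebra ℝ W) * ι ℝ (P v) =
        map s (c {v}) * ι ℝ (s (π (P v))) + a v • map s (c {v}) * ι ℝ e
          - map s (z v) * ι ℝ (s (π (P v))) * ι ℝ e := fun v => by
      have e4 : ι ℝ e * ι ℝ (P v) = -(ι ℝ (s (π (P v))) * ι ℝ e) := by
        conv_lhs => rw [hP v]
        rw [map_add, map_smul, mul_add, mul_smul_comm, ι_sq_zero, smul_zero, add_zero]
        exact eq_neg_of_add_eq_zero_left (ι_add_mul_swap _ _)
      rw [Finset.sum_singleton, Submodule.coe_add, add_mul]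
      show map s _ * _ + map s _ * ι ℝ e * _ = _
      rw [mul_assoc, e4, mul_assoc, mul_neg, ← sub_eq_add_neg]
      congr 1
      conv_lhs => rw [hP v]
      rw [map_add, map_smul, mul_add, mul_smul_comm, smul_mul_assoc]
      rfl
    simp only [e3, Finset.sum_sub_distrib, Finset.sum_add_distrib, e1, e2, zero_add, sub_self]
  · rw [cm_mk]
    congr 1
    funext σ
    rw [map_add, mp_mp π s h, map_sum, Finset.sum_eq_zero, add_zero]
    exact fun v _ => Subtype.ext (by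
      show map π (_ * _) = 0
      rw [map_mul, map_apply_ι, he, map_zero, mul_zero])

end

end Pool.Agent.P.MP_7bb607_co
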