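import Pool.Agent.P.MP_7bb607_co.Neg

namespace Pool.Agent.P.MP_7bb607_co

open ExteriorAlgebra

noncomputable section

/-- Vertical projection in homogeneous coordinates. -/
def vp (d : ℕ) : (Fin (d + 2) → ℝ) →ₗ[ℝ] Fin (d + 1) → ℝ :=
  LinearMap.funLeft ℝ ℝ (Fin.last d).castSucc.succAbove

theorem vp_snoc {d : ℕ} (x : Fin (d + 1) → ℝ) :
    vp d (Fin.snoc x 1) = (Fin.snoc (Fin.init x : Fin d → ℝ) 1 : Fin (d + 1) → ℝ) := by
  funext i
  refine Fin.lastCases ?_ (fun i => ?_) i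
  · simp [vp, LinearMap.funLeft_apply]
  · rw [vp, LinearMap.funLeft_apply, Fin.succAbove_of_castSucc_lt _ _ (by simp)]
    simp [Fin.init]

theorem span_snoc {d n : ℕ} (q : Fin n → Fin d → ℝ) (h : affineSpan ℝ (Set.range q) = ⊤) :
    Submodule.span ℝ (Set.range fun v => (Fin.snoc (q v) 1 : Fin (d + 1) → ℝ)) = ⊤ := by
  have h1 : ∀ x : Fin d → ℝ, (Fin.snoc x 1 : Fin (d + 1) → ℝ) ∈
      Submodule.span ℝ (Set.range fun v => (Fin.snoc (q v) 1 : Fin (d + 1) → ℝ)) := fun x => by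
    refine affineSpan_induction (k := ℝ) (s := Set.range q)
      (p := fun x => (Fin.snoc x 1 : Fin (d + 1) → ℝ) ∈
        Submodule.span ℝ (Set.range fun v => (Fin.snoc (q v) 1 : Fin (d + 1) → ℝ)))
      (h ▸ AffineSubspace.mem_top ℝ _ x)
      (fun _ ⟨v, hv⟩ => Submodule.subset_span ⟨v, by rw [← hv]⟩) fun c u v w hu hv hw => ?_
    have : (Fin.snoc (c • (u -ᵥ v) +ᵥ w) 1 : Fin (d + 1) → ℝ) =
        c • ((Fin.snoc u 1 : Fin (d + 1) → ℝ) - Fin.snoc v 1) + Fin.snoc w 1 := by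
      funext i
      refine Fin.lastCases ?_ (fun i => ?_) i <;> simp
    exact this ▸ add_mem (Submodule.smul_mem _ _ (sub_mem hu hv)) hw
  refine eq_top_iff.2 fun y _ => ?_
  have : y = Fin.snoc (Fin.init y) 1 +
      (y (Fin.last d) - 1) • (Fin.snoc (0 : Fin d → ℝ) 1 : Fin (d + 1) → ℝ) := by
    funext i
    refine Fin.lastCases ?_ (fun i => ?_) i <;> simp [Fin.init]
  exact this ▸ add_mem (h1 _) (Submodule.smul_mem _ _ (h1 _))

theorem betti_le {d n r m : ℕ} (hm : m < r) (hm1 : m ≤ 1) (Δ : Finset (Finset (Fin n)))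
    (p : Fin n → Fin (d + 1) → ℝ) (h0 : ∅ ∈ Δ) (h1 : ∀ v, {v} ∈ Δ)
    (h : m = 1 → affineSpan ℝ (Set.range fun v => (Fin.init (p v) : Fin d → ℝ)) = ⊤) :
    betti Δ (fun v => (Fin.init (p v) : Fin d → ℝ)) r m ≤ betti Δ p r m := by
  obtain ⟨s, hs⟩ := (vp d).exists_rightInverse_of_surjective (LinearMap.range_eq_top.2
    (LinearMap.funLeft_surjective_of_injective _ _ _ (Fin.succAbove_right_injective)))
  simp only [betti, ← vp_snoc]
  obtain rfl | rfl : m = 0 ∨ m = 1 := by omega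
  · exact homDim_zero_le _ s hs _ _ _
  have h2 := span_snoc _ (h rfl)
  simp only [← vp_snoc] at h2
  obtain ⟨k, hk⟩ : ∃ k, r - 1 = k + 1 := ⟨r - 2, by omega⟩
  rw [hk]
  have key : ∀ x : Fin (d + 2) → ℝ, x = s (vp d x) +
      (x - s (vp d x)) (Fin.last d).castSucc • Pi.single (Fin.last d).castSucc 1 := fun x => by
    have h3 : vp d (x - s (vp d x)) = 0 := by
      rw [map_sub, show vp d (s _) = _ from LinearMap.congr_fun hs _, LinearMap.id_apply, sub_self]
    rw [← sub_eq_iff_eq_add']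
    funext i
    refine Fin.succAboveCases (Fin.last d).castSucc (by simp) (fun i => ?_) i
    exact (congrFun h3 i).trans (by simp)
  exact homDim_one_le _ s hs _ (funext fun i => by simp [vp, LinearMap.funLeft_apply]) _ _
    (fun v => key _) h2 h0 h1 k

theorem affIndep_of_lin {d : ℕ} {I : Type} (x : I → Fin d → ℝ)
    (h : LinearIndependent ℝ fun v => (Fin.snoc (x v) 1 : Fin (d + 1) → ℝ)) :
    AffineIndependent ℝ x := by
  refine affineIndependent_iff.2 fun s w h1 h2 => linearIndependent_iff'.1 h s w ?_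
  funext i
  refine Fin.lastCases ?_ (fun i => ?_) i
  · simpa [Finset.sum_apply] using h1
  · simpa [Finset.sum_apply] using congrFun h2 i

theorem betti_lt {d r m : ℕ} (hr : r ≤ d + 1) (hm : m < r) (hm2 : 2 ≤ m) :
    ∃ (Δ : Finset (Finset (Fin (d + 2)))) (p : Fin (d + 2) → Fin (d + 1) → ℝ),
      (∀ v, {v} ∈ Δ) ∧ (∀ σ ∈ Δ, ∀ τ ⊆ σ, τ ∈ Δ) ∧ AffineIndependent ℝ p ∧
      (∀ s : Finset (Fin (d + 2)), s.card ≤ r →
        AffineIndependent ℝ fun v : s => (Fin.init (p v) : Fin d → ℝ)) ∧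
      affineSpan ℝ (Set.range fun v => (Fin.init (p v) : Fin d → ℝ)) = ⊤ ∧
      betti Δ p r m = 0 ∧ 0 < betti Δ (fun v => (Fin.init (p v) : Fin d → ℝ)) r m := by
  obtain ⟨a, rfl⟩ : ∃ a, m = a + 1 := ⟨m - 1, by omega⟩
  obtain ⟨k, rfl⟩ : ∃ k, r = a + 1 + (k + 1) := ⟨r - a - 2, by omega⟩
  let S : Sph (d + 2) (k + 1) :=
    { A := Finset.Iio ⟨a, by omega⟩
      t := fun j => ⟨min (a + j) (d + 1), by omega⟩
      ne := ⟨0, by simp [Fin.lt_def]; omega⟩
      hA := fun j hj => by simp; omega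
      ht := fun i hi j hj h => by simp [Fin.ext_iff] at h; omega }
  have hA : S.A.card = a := Fin.card_Iio _
  clear_value S
  obtain ⟨sp, hsp⟩ : ∃ sp, sp = S.t (k + 2) := ⟨_, rfl⟩
  have t1 : ∀ j ∈ Finset.range (k + 2), S.t j ≠ sp := fun j hj e => by
    have := S.ht _ (by simp at hj; omega) _ le_rfl (e.trans hsp)
    simp at hj
    omega
  have t2 : ∀ v ∈ S.A, v ≠ sp := fun v hv e => S.hA _ le_rfl (hsp ▸ e ▸ hv)
  obtain ⟨b⟩ := AffineBasis.exists_affineBasis_of_finiteDimensional (ι := {v // v ≠ sp})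
    (k := ℝ) (V := Fin d → ℝ) (P := Fin d → ℝ) (by simp)
  obtain ⟨w, hw⟩ : ∃ w : ℝ, w * (k + 2 + a) = 1 := ⟨_, inv_mul_cancel₀ (by positivity)⟩
  have hw0 : w ≠ 0 := left_ne_zero_of_mul_eq_one hw
  obtain ⟨q, hq, hq'⟩ : ∃ q : Fin (d + 2) → Fin d → ℝ, (∀ v : {v // v ≠ sp}, q v = b v) ∧
      q sp = ∑ j ∈ Finset.range (k + 2), w • q (S.t j) + ∑ v ∈ S.A, w • q v := by
    let q₀ : Fin (d + 2) → Fin d → ℝ := fun v => if h : v ≠ sp then b ⟨v, h⟩ else 0
    refine ⟨Function.update q₀ sp (∑ j ∈ Finset.range (k + 2), w • q₀ (S.t j) +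
      ∑ v ∈ S.A, w • q₀ v), fun v => by rw [Function.update_of_ne v.2]; exact dif_pos v.2, ?_⟩
    rw [Function.update_self]
    congr 1
    · exact Finset.sum_congr rfl fun j hj => by rw [Function.update_of_ne (t1 j hj)]
    · exact Finset.sum_congr rfl fun v hv => by rw [Function.update_of_ne (t2 v hv)]
  obtain ⟨Q, hQ⟩ : ∃ Q : Fin (d + 2) → Fin (d + 1) → ℝ, Q = fun v => Fin.snoc (q v) 1 := ⟨_, rfl⟩
  have hQ' : Q sp = ∑ j ∈ Finset.range (k + 2), w • Q (S.t j) + ∑ v ∈ S.A, w • Q v := by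
    funext i
    refine Fin.lastCases ?_ (fun i => ?_) i
    · simp [hQ, Finset.sum_apply, hA]
      linarith
    · simpa [hQ, Finset.sum_apply] using congrFun hq' i
  obtain ⟨f₀, hf₀⟩ := exists_dual _ (linIndep_of_affIndep _ b.ind)
  obtain ⟨f, hf⟩ : ∃ f : Fin (d + 2) → Module.Dual ℝ (Fin (d + 1) → ℝ),
      ∀ v u, v ≠ sp → u ≠ sp → f v (Q u) = if v = u then 1 else 0 :=
    ⟨fun v => if h : v ≠ sp then f₀ ⟨v, h⟩ else 0, fun v u hv hu => by
      simpa [hv, hQ, hq ⟨u, hu⟩] using hf₀ ⟨v, hv⟩ ⟨u, hu⟩⟩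
  have rel : ∀ c : Fin (d + 2) → ℝ, ∑ v, c v • Q v = 0 → ∀ v ≠ sp,
      c v + c sp * f v (Q sp) = 0 := fun c hc v hv => by
    have := congrArg (f v) hc
    rw [map_sum, map_zero, ← Finset.add_sum_erase _ _ (Finset.mem_univ sp),
      Finset.sum_eq_single_of_mem v (by simp [hv]) fun u hu e => by
        rw [map_smul, hf v u hv (Finset.ne_of_mem_erase hu), if_neg e.symm, smul_zero]] at this
    simpa [hf v v hv hv, add_comm] using this
  have hν : ∀ v ∈ S.A ∪ (Finset.range (k + 2)).image S.t, v ≠ sp ∧ f v (Q sp) = w := by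
    intro v hv
    rw [hQ', map_add, map_sum, map_sum]
    rcases Finset.mem_union.1 hv with hv | hv
    · refine ⟨t2 v hv, ?_⟩
      rw [Finset.sum_eq_zero fun j hj => by
        rw [map_smul, hf _ _ (t2 v hv) (t1 j hj),
          if_neg (ne_of_mem_of_not_mem hv (S.hA j (by simp at hj; omega))), smul_zero],
        Finset.sum_eq_single_of_mem v hv fun u hu e => by
          rw [map_smul, hf _ _ (t2 v hv) (t2 u hu), if_neg e.symm, smul_zero]]
      simp [hf _ _ (t2 v hv) (t2 v hv)]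
    · obtain ⟨i, hi, rfl⟩ := Finset.mem_image.1 hv
      refine ⟨t1 i hi, ?_⟩
      rw [Finset.sum_eq_zero (s := S.A) fun u hu => by
        rw [map_smul, hf _ _ (t1 i hi) (t2 u hu),
          if_neg (ne_of_mem_of_not_mem hu (S.hA i (by simp at hi; omega))).symm, smul_zero],
        Finset.sum_eq_single_of_mem i hi fun j hj e => by
          rw [map_smul, hf _ _ (t1 i hi) (t1 j hj), if_neg fun e' =>
            e (S.ht _ (by simp at hi; omega) _ (by simp at hj; omega) e').symm, smul_zero]]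
      simp [hf _ _ (t1 i hi) (t1 i hi)]
  have all : ∀ c : Fin (d + 2) → ℝ, ∑ v, c v • Q v = 0 → c sp = 0 → ∀ v, c v = 0 :=
    fun c h1 h2 v => by
      rcases eq_or_ne v sp with rfl | hv
      · exact h2
      · simpa [h2] using rel c h1 v hv
  obtain ⟨p, hp⟩ : ∃ p : Fin (d + 2) → Fin (d + 1) → ℝ,
    p = fun v => Fin.snoc (q v) (if v = sp then 1 else 0) := ⟨_, rfl⟩
  have hi : (fun v => (Fin.init (p v) : Fin d → ℝ)) = q := by simp [hp]
  have hP : LinearIndependent ℝ fun v => (Fin.snoc (p v) 1 : Fin (d + 2) → ℝ) := by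
    refine Fintype.linearIndependent_iff.2 fun c hc => all c ?_ ?_
    · simpa [vp_snoc, hQ, hp] using congrArg (vp d) hc
    · simpa [Finset.sum_apply, hp] using congrFun hc (Fin.last d).castSucc
  refine ⟨S.cx, p, fun v => S.mem_cx.2 (Or.inl (by simp)), fun σ h τ h' => S.cx_down h h',
    affIndep_of_lin p hP, fun s hs => affIndep_of_lin _ ?_, ?_, ?_, ?_⟩
  · have : LinearIndepOn ℝ Q s := linearIndepOn_finset_iff.2 fun c hc v hv => by
      have h1 : ∑ v, (if v ∈ s then c v else 0) • Q v = 0 := by simpa using hc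
      refine (if_pos hv).symm.trans (all _ h1 ?_ v)
      by_contra h2
      have h3 : insert sp (S.A ∪ (Finset.range (k + 2)).image S.t) ⊆ s := by
        refine Finset.insert_subset (by by_contra h; exact h2 (if_neg h)) fun u hu => ?_
        by_contra h
        have := rel _ h1 u (hν u hu).1
        rw [if_neg h, zero_add, (hν u hu).2] at this
        exact mul_ne_zero h2 hw0 this
      have h4 := Finset.card_le_card h3
      rw [Finset.card_insert_of_notMem fun h => (hν sp h).1 rfl,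
        Finset.card_union_of_disjoint (Finset.disjoint_right.2 fun v hv => by
          obtain ⟨j, hj, rfl⟩ := Finset.mem_image.1 hv
          exact S.hA j (by simp at hj; omega)), Finset.card_image_of_injOn fun i hi j hj =>
            S.ht i (by simp at hi; omega) j (by simp at hj; omega), Finset.card_range] at h4
      omega
    simpa [hQ, hp, LinearIndepOn] using this
  · rw [hi, eq_top_iff, ← b.tot]
    exact affineSpan_mono ℝ (Set.range_subset_iff.2 fun v => ⟨v, hq v⟩)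
  · rw [betti, Nat.add_sub_cancel_left, ← hA]
    exact S.homDim_eq_zero _ hP
  · rw [hi, betti, Nat.add_sub_cancel_left, ← hA, ← hQ]
    exact S.homDim_pos Q f (hsp ▸ hf) (fun _ => w) hw0 (fun _ => w) (hsp ▸ hQ')

end

end Pool.Agent.P.MP_7bb607_co
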